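import Pool.Agent.DAO.St

/-!
# Project DAO, module ADR: the indirectly addressed formula
-/

set_option autoImplicit false

namespace Pool.Agent.DAO.MADR

open Finset Pool.Agent.OB Pool.Agent.DGO Pool.Agent.DAO

variable {A : Type} [DecidableEq A]

/-- The clause for the clause `D` and the addresses `s`. -/
def cl (g : ℕ) (D : Clause A) (s : A → Fin g → Bool) :
    Clause ((Fin g → Bool) ⊕ (A × Fin g)) :=
  (D.biUnion fun l => univ.image fun j : Fin g => (Sum.inr (l.1, j), !(s l.1 j))) ∪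
    D.image fun l => (Sum.inl (s l.1), l.2)

theorem mem_cl (g : ℕ) (D : Clause A) (s : A → Fin g → Bool)
    (l : Lit ((Fin g → Bool) ⊕ (A × Fin g))) : l ∈ cl g D s ↔
      (∃ l' ∈ D, ∃ j : Fin g, (Sum.inr (l'.1, j), !(s l'.1 j)) = l) ∨
        ∃ l' ∈ D, (Sum.inl (s l'.1), l'.2) = l := by
  unfold cl
  rw [mem_union, mem_biUnion, mem_image]
  constructor
  · rintro (⟨l', hl', h⟩ | h)
    · obtain ⟨j, -, hj⟩ := mem_image.1 h
      exact Or.inl ⟨l', hl', j, hj⟩
    · exact Or.inr h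
  · rintro (⟨l', hl', j, hj⟩ | h)
    · exact Or.inl ⟨l', hl', mem_image.2 ⟨j, mem_univ _, hj⟩⟩
    · exact Or.inr h

theorem card_cl (g : ℕ) (D : Clause A) (s : A → Fin g → Bool) :
    (cl g D s).card ≤ D.card * (g + 1) := by
  unfold cl
  refine (card_union_le _ _).trans ?_
  have h1 : (D.biUnion fun l => univ.image fun j : Fin g =>
      ((Sum.inr (l.1, j), !(s l.1 j)) : Lit ((Fin g → Bool) ⊕ (A × Fin g)))).card ≤ D.card * g := by
    refine card_biUnion_le_card_mul _ _ _ fun l _ => ?_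
    refine card_image_le.trans ?_
    rw [card_univ, Fintype.card_fin]
  have h2 : (D.image fun l =>
      ((Sum.inl (s l.1), l.2) : Lit ((Fin g → Bool) ⊕ (A × Fin g)))).card ≤ D.card := card_image_le
  rw [Nat.mul_add, Nat.mul_one]
  exact Nat.add_le_add h1 h2

theorem cl_congr (g : ℕ) (D : Clause A) (s s' : A → Fin g → Bool)
    (h : ∀ a ∈ D.image Prod.fst, s a = s' a) : cl g D s = cl g D s' := by
  have h' : ∀ l ∈ D, s l.1 = s' l.1 := fun l hl => h _ (mem_image_of_mem _ hl)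
  ext l
  rw [mem_cl, mem_cl]
  constructor
  · rintro (⟨l', hl', j, hj⟩ | ⟨l', hl', hl⟩)
    · exact Or.inl ⟨l', hl', j, by rw [← h' l' hl']; exact hj⟩
    · exact Or.inr ⟨l', hl', by rw [← h' l' hl']; exact hl⟩
  · rintro (⟨l', hl', j, hj⟩ | ⟨l', hl', hl⟩)
    · exact Or.inl ⟨l', hl', j, by rw [h' l' hl']; exact hj⟩
    · exact Or.inr ⟨l', hl', by rw [h' l' hl']; exact hl⟩

/-- The extension of a function on a subset. -/
def ex (g : ℕ) (S : Finset A) (u : {a // a ∈ S} → Fin g → Bool) (a : A) : Fin g → Bool :=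
  if h : a ∈ S then u ⟨a, h⟩ else fun _ => false

theorem card_im [Fintype A] (g : ℕ) (D : Clause A) (hD : D.card ≤ 6) :
    (univ.image fun s : A → Fin g → Bool => cl g D s).card ≤ 2 ^ (6 * g) := by
  have hsub : (univ.image fun s : A → Fin g → Bool => cl g D s) ⊆
      univ.image fun u : {a // a ∈ D.image Prod.fst} → Fin g → Bool =>
        cl g D (ex g (D.image Prod.fst) u) := by
    intro C hC
    obtain ⟨s, -, rfl⟩ := mem_image.1 hC
    refine mem_image.2 ⟨fun a => s a.1, mem_univ _, ?_⟩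
    refine cl_congr g D _ _ fun a ha => ?_
    unfold ex
    rw [dif_pos ha]
  refine (card_le_card hsub).trans (card_image_le.trans ?_)
  rw [card_univ, Fintype.card_fun, Fintype.card_fun, Fintype.card_bool, Fintype.card_fin,
    Fintype.card_coe, ← pow_mul]
  refine Nat.pow_le_pow_right (by norm_num) ?_
  have h6 : (D.image Prod.fst).card ≤ 6 := card_image_le.trans hD
  calc g * (D.image Prod.fst).card ≤ g * 6 := Nat.mul_le_mul_left _ h6
    _ = 6 * g := Nat.mul_comm _ _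

theorem adr_eq [Fintype A] (g : ℕ) (H : CNF A) (C : Clause ((Fin g → Bool) ⊕ (A × Fin g))) :
    C ∈ adr g H ↔ (∃ D ∈ H, ∃ s : A → Fin g → Bool, cl g D s = C) ∧ ¬ Taut C := by
  classical
  unfold adr
  rw [mem_filter, mem_biUnion]
  constructor
  · rintro ⟨⟨D, hD, h⟩, hT⟩
    obtain ⟨s, -, hs⟩ := mem_image.1 h
    exact ⟨⟨D, hD, s, hs⟩, hT⟩
  · rintro ⟨⟨D, hD, s, hs⟩, hT⟩
    exact ⟨⟨D, hD, mem_image.2 ⟨s, mem_univ _, hs⟩⟩, hT⟩

theorem not_taut {V : Type} (b : V → Bool) (C : Clause V) (h : ¬ Sat b C) : ¬ Taut C := by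
  rintro ⟨v, h1, h2⟩
  apply h
  cases hb : b v
  · exact ⟨(v, false), h2, hb⟩
  · exact ⟨(v, true), h1, hb⟩

end Pool.Agent.DAO.MADR

namespace Pool.Agent.DAO

open Finset Pool.Agent.OB Pool.Agent.DGO MADR

theorem t_ADR : S_ADR := by
  intro A _ _ g H hH
  refine ⟨?_, ?_, ?_⟩
  · intro hU b
    obtain ⟨D, hD, hS⟩ := hU fun a => b (Sum.inl fun j => b (Sum.inr (a, j)))
    have hC : ¬ Sat b (cl g D fun a j => b (Sum.inr (a, j))) := by
      rintro ⟨l, hl, hb⟩
      rw [mem_cl] at hl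
      rcases hl with ⟨l', hl', j, rfl⟩ | ⟨l', hl', rfl⟩
      · have hb' : b (Sum.inr (l'.1, j)) = !(b (Sum.inr (l'.1, j))) := hb
        cases hx : b (Sum.inr (l'.1, j)) <;> rw [hx] at hb' <;> cases hb'
      · exact hS ⟨l', hl', hb⟩
    exact ⟨_, (adr_eq g H _).2 ⟨⟨D, hD, _, rfl⟩, not_taut b _ hC⟩, hC⟩
  · intro C hC
    obtain ⟨⟨D, hD, s, rfl⟩, hT⟩ := (adr_eq g H C).1 hC
    exact ⟨hT, (card_cl g D s).trans (Nat.mul_le_mul_right _ (hH D hD))⟩
  · classical
    unfold adr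
    refine (card_filter_le _ _).trans ?_
    refine card_biUnion_le_card_mul _ _ _ fun D hD => ?_
    exact card_im g D (hH D hD)

end Pool.Agent.DAO
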