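import Pool.Agent.DAO.St

set_option autoImplicit false

namespace Pool.Agent.DAO

open Finset Pool.Agent.OB Pool.Agent.DGO

namespace MAXI

section

variable {A : Type} [DecidableEq A]

/-- The clause for the clause `D` and the addresses `s`. -/
def cl (g : ℕ) (D : Clause A) (s : A → Fin g → Bool) :
    Clause ((Fin g → Bool) ⊕ (A × Fin g)) :=
  (D.biUnion fun l => univ.image fun j : Fin g => (Sum.inr (l.1, j), !(s l.1 j))) ∪
    D.image fun l => (Sum.inl (s l.1), l.2)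

theorem mem_cl (g : ℕ) (D : Clause A) (s : A → Fin g → Bool)
    (l : Lit ((Fin g → Bool) ⊕ (A × Fin g))) : l ∈ cl g D s ↔
      (∃ l' ∈ D, ∃ j : Fin g, (Sum.inr (l'.1, j), !(s l'.1 j)) = l) ∨
        ∃ l' ∈ D, (Sum.inl (s l'.1), l'.2) = l := by
  unfold cl
  rw [mem_union, mem_biUnion, mem_image]
  constructor
  · rintro (⟨l', hl', h⟩ | h)
    · obtain ⟨j, -, hj⟩ := mem_image.1 h
      exact Or.inl ⟨l', hl', j, hj⟩
    · exact Or.inr h
  · rintro (⟨l', hl', j, hj⟩ | h)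
    · exact Or.inl ⟨l', hl', mem_image.2 ⟨j, mem_univ _, hj⟩⟩
    · exact Or.inr h

theorem adr_eq [Fintype A] (g : ℕ) (H : CNF A) (C : Clause ((Fin g → Bool) ⊕ (A × Fin g))) :
    C ∈ adr g H ↔ (∃ D ∈ H, ∃ s : A → Fin g → Bool, cl g D s = C) ∧ ¬ Taut C := by
  classical
  unfold adr
  rw [mem_filter, mem_biUnion]
  constructor
  · rintro ⟨⟨D, hD, h⟩, hT⟩
    obtain ⟨s, -, hs⟩ := mem_image.1 h
    exact ⟨⟨D, hD, s, hs⟩, hT⟩
  · rintro ⟨⟨D, hD, s, hs⟩, hT⟩
    exact ⟨⟨D, hD, mem_image.2 ⟨s, mem_univ _, hs⟩⟩, hT⟩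


end

variable {I : Type} {t : ℕ}

lemma atv0 (e : (Fin t → Bool) ≃ Fin (2 ^ t)) (p : Ptr I t) (V : Arr I t) (i : I)
    (q : Fin (2 ^ t + 1)) : atv e p V (0, i, q) = decide ((e (p i)).castSucc = q) := by
  simp [atv]

lemma atv1 (e : (Fin t → Bool) ≃ Fin (2 ^ t)) (p : Ptr I t) (V : Arr I t) (i : I)
    (q : Fin (2 ^ t + 1)) : atv e p V (1, i, q) = decide ((e (p i)).castSucc < q) := by
  simp [atv]

lemma atv2 (e : (Fin t → Bool) ≃ Fin (2 ^ t)) (p : Ptr I t) (V : Arr I t) (i : I) :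
    atv e p V (2, i, (e (p i)).castSucc) = V i (p i) := by
  have h : (((e (p i)).castSucc : Fin (2 ^ t + 1)) : ℕ) < 2 ^ t := (e (p i)).2
  have h2 : ((2 : Fin 3) = 0) = False := by decide
  have h3 : ((2 : Fin 3) = 1) = False := by decide
  unfold atv
  simp only [h2, h3, if_false]
  rw [dif_pos h]
  congr 1
  rw [Equiv.symm_apply_eq]
  rfl

end MAXI

open MAXI in
theorem t_AXI : S_AXI := by
  intro I _ _ t g e pos G hG hv C hC
  obtain ⟨⟨D, hD, s, hCe⟩, -⟩ := (adr_eq g _ C).1 hC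
  have m1 : ∀ l ∈ D, (Sum.inl (s l.1), l.2) ∈ C := fun l hl => by
    rw [← hCe, mem_cl]
    exact Or.inr ⟨l, hl, rfl⟩
  have m2 : ∀ l ∈ D, ∀ j, (Sum.inr (l.1, j), !(s l.1 j)) ∈ C := fun l hl j => by
    rw [← hCe, mem_cl]
    exact Or.inl ⟨l, hl, j, rfl⟩
  -- the key: falsified
  have key : ∀ p V, ¬ Sat (emb e pos p V) C → ¬ Sat (atv e p V) D := by
    intro p V h hs
    apply h
    obtain ⟨l, hl, hl2⟩ := hs
    by_cases hsl : s l.1 = pos l.1
    · refine ⟨_, m1 l hl, ?_⟩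
      show emb e pos p V (Sum.inl (s l.1)) = l.2
      rw [hsl, hv]
      exact hl2
    · obtain ⟨j, hj⟩ := Function.ne_iff.1 hsl
      refine ⟨_, m2 l hl j, ?_⟩
      show pos l.1 j = !(s l.1 j)
      revert hj
      cases pos l.1 j <;> cases s l.1 j <;> simp
  obtain ⟨C1, hC1⟩ := hG
  unfold idx at hD
  rw [Finset.mem_union, Finset.mem_union, Finset.mem_union] at hD
  rcases hD with ((hD | hD) | hD) | hD
  · rw [Finset.mem_image] at hD
    obtain ⟨i, -, rfl⟩ := hD
    refine ⟨C1, hC1, fun p V h => absurd ?_ (key p V h)⟩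
    refine ⟨((1, i, 0), false), by simp, ?_⟩
    show atv e p V (1, i, 0) = false
    rw [atv1]
    simp
  · rw [Finset.mem_image] at hD
    obtain ⟨i, -, rfl⟩ := hD
    refine ⟨C1, hC1, fun p V h => absurd ?_ (key p V h)⟩
    refine ⟨((1, i, Fin.last _), true), by simp, ?_⟩
    show atv e p V (1, i, Fin.last _) = true
    rw [atv1]
    simp [Fin.castSucc_lt_last]
  · rw [Finset.mem_image] at hD
    obtain ⟨v, -, rfl⟩ := hD
    refine ⟨C1, hC1, fun p V h => absurd ?_ (key p V h)⟩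
    by_cases h1 : (e (p v.1)).castSucc < v.2.succ
    · by_cases h2 : (e (p v.1)).castSucc < v.2.castSucc
      · refine ⟨((1, v.1, v.2.castSucc), true), by simp, ?_⟩
        show atv e p V (1, v.1, v.2.castSucc) = true
        rw [atv1]
        simpa using h2
      · refine ⟨((0, v.1, v.2.castSucc), true), by simp, ?_⟩
        show atv e p V (0, v.1, v.2.castSucc) = true
        rw [atv0]
        have h3 : (e (p v.1)).castSucc = v.2.castSucc := by
          have h4 : ((e (p v.1)) : ℕ) < (v.2 : ℕ) + 1 := h1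
          have h5 : ¬ ((e (p v.1)) : ℕ) < (v.2 : ℕ) := h2
          apply Fin.ext
          show ((e (p v.1)) : ℕ) = (v.2 : ℕ)
          omega
        simp [h3]
    · refine ⟨((1, v.1, v.2.succ), false), by simp, ?_⟩
      show atv e p V (1, v.1, v.2.succ) = false
      rw [atv1]
      simpa using h1
  · rw [Finset.mem_biUnion] at hD
    obtain ⟨C₀, hC₀, hD⟩ := hD
    rw [Finset.mem_image] at hD
    obtain ⟨p', -, rfl⟩ := hD
    refine ⟨C₀, hC₀, fun p V h hs => key p V h ?_⟩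
    obtain ⟨l, hl, hl2⟩ := hs
    have hl3 : V l.1 (p l.1) = l.2 := hl2
    by_cases h1 : (e (p l.1)).castSucc = p' l.1
    · refine ⟨((2, l.1, p' l.1), l.2), ?_, ?_⟩
      · rw [Finset.mem_union]
        exact Or.inr (Finset.mem_image_of_mem (fun l => ((2, l.1, p' l.1), l.2)) hl)
      · show atv e p V (2, l.1, p' l.1) = l.2
        rw [← h1, atv2, hl3]
    · refine ⟨((0, l.1, p' l.1), false), ?_, ?_⟩
      · rw [Finset.mem_union]
        exact Or.inl (Finset.mem_image_of_mem (fun l => ((0, l.1, p' l.1), false)) hl)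
      · show atv e p V (0, l.1, p' l.1) = false
        rw [atv0]
        simpa using h1

end Pool.Agent.DAO
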