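import Pool.Agent.DAO.St

/-!
# DAO, module BIT: numbers with given binary digits
-/

set_option autoImplicit false

namespace Pool.Agent.DAO

theorem t_BIT : S_BIT := by
  intro D c
  refine ⟨Nat.ofBits fun i : Fin D => c i, Nat.ofBits_lt_two_pow _, fun j hj => ?_⟩
  rw [Nat.testBit_ofBits_lt _ j hj]

end Pool.Agent.DAO
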