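import Pool.Agent.DAO.Defs
import Pool.Agent.DGO.CDefs

/-!
# Project DAO: definitions for the proof
-/

set_option autoImplicit false

namespace Pool.Agent.DAO

open Finset Pool.Agent.OB Pool.Agent.DGO

/-- The function `F` has a two-party protocol with `D` bits: bit `j` is sent by the owner of `P` if
`own j = true`, otherwise by the owner of `Q`, and the value of `F` is determined by the `D` bits. -/
def BP {P Q : Type*} (D : ℕ) (F : P → Q → Bool) : Prop :=
  ∃ (own : ℕ → Bool) (β : ℕ → P → Q → Bool),
    (∀ j < D, ∀ p q p' q', (∀ i < j, β i p q = β i p' q') → (own j = true → p = p') →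
      (own j = false → q = q') → β j p q = β j p' q') ∧
    ∀ p q p' q', (∀ i < D, β i p q = β i p' q') → F p q = F p' q'

section

variable {I : Type} {t g : ℕ}

/-- The value of the atom `a` for the pointers `p` and the tables `V`; `e` numbers the pointers. -/
def atv (e : (Fin t → Bool) ≃ Fin (2 ^ t)) (p : Ptr I t) (V : Arr I t)
    (a : Fin 3 × I × Fin (2 ^ t + 1)) : Bool :=
  if a.1 = 0 then decide ((e (p a.2.1)).castSucc = a.2.2)
  else if a.1 = 1 then decide ((e (p a.2.1)).castSucc < a.2.2)
  else if h : (a.2.2 : ℕ) < 2 ^ t then V a.2.1 (e.symm ⟨a.2.2, h⟩) else false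

open Classical in
/-- The assignment for the pointers `p` and the tables `V`, when the address of the atom `a` is
`pos a`. The pool variables which are not the address of an atom are `false`. -/
noncomputable def emb (e : (Fin t → Bool) ≃ Fin (2 ^ t))
    (pos : Fin 3 × I × Fin (2 ^ t + 1) → Fin g → Bool) (p : Ptr I t) (V : Arr I t) :
    (Fin g → Bool) ⊕ ((Fin 3 × I × Fin (2 ^ t + 1)) × Fin g) → Bool
  | Sum.inr (a, j) => pos a j
  | Sum.inl y => if h : ∃ a, pos a = y then atv e p V h.choose else false

end

end Pool.Agent.DAO
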