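import Pool.Agent.Lib_helper80.OB.ODefs

/-!
# Refutations by oblivious branching programs: definitions

Clauses, CNFs and OBDDs are those of `Pool.Agent.Lib_helper80.OB.ODefs`.
-/

set_option autoImplicit false

namespace Pool.Agent.DAO

open Finset Pool.Agent.OB

/-! ## Refutations -/

/-- The state of an oblivious branching program with `w` states after `t` steps on the input `x`.
At time `t` it reads the variable `σ t`; the next state depends on the time, the present state and
the value read. -/
def run {V : Type*} {w : ℕ} (δ : ℕ → Fin w → Bool → Fin w) (σ : ℕ → V) (q : Fin w)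
    (x : V → Bool) : ℕ → Fin w
  | 0 => q
  | t + 1 => δ t (run δ σ q x t) (x (σ t))

/-- The function `f` is computed by an oblivious branching program of width `w` which reads the
variables `σ 0, …, σ (T - 1)` in this order. -/
def Obl {V : Type*} (σ : ℕ → V) (T w : ℕ) (f : (V → Bool) → Bool) : Prop :=
  ∃ (δ : ℕ → Fin w → Bool → Fin w) (q : Fin w) (acc : Fin w → Bool), ∀ x, f x = acc (run δ σ q x T)

/-- The function `f` is a linear inequality with integer coefficients, the sum of their absolute
values is at most `s`. -/
def Ineq {V : Type*} [Fintype V] (s : ℕ) (f : (V → Bool) → Bool) : Prop :=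
  ∃ (a : V → ℤ) (b : ℤ), (∑ v, |a v|) ≤ s ∧ ∀ x, f x = true ↔ b ≤ ∑ v, if x v = true then a v else 0

/-- `Ref F A L`: there is a DAG-like refutation of the CNF `F` with `L` lines in the class `A` of
functions. Each line is implied by a clause of `F` or by two earlier lines (which may be equal, and
may be used arbitrarily often), and some line is the constant false. -/
def Ref {V : Type*} (F : CNF V) (A : ((V → Bool) → Bool) → Prop) (L : ℕ) : Prop :=
  ∃ f : ℕ → (V → Bool) → Bool,
    (∀ k < L, A (f k) ∧
      ((∃ C ∈ F, ∀ x, Sat x C → f k x = true) ∨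
        ∃ i < k, ∃ j < k, ∀ x, f i x = true → f j x = true → f k x = true)) ∧
    ∃ k < L, ∀ x, f k x = false

/-- The functions with an OBDD of at most `s` nodes for one of the `l` orders `ord k` of all
variables, and the linear inequalities with coefficients of total absolute value at most `s`. -/
def Mixed {V : Type*} [Fintype V] {l : ℕ} (ord : Fin l → (V ≃ Fin (Fintype.card V))) (s : ℕ)
    (f : (V → Bool) → Bool) : Prop :=
  (∃ k, ∃ s' ≤ s, HasOBDD (ord k) s' f) ∨ Ineq s f

/-! ## The formulas -/

/-- The pigeonhole principle for `m + 1` pigeons and `m` holes, with clauses of width 3. Variables: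
`(i, inl j)`: pigeon `i` sits in the hole `j`; `(i, inr j)`: the hole of the pigeon `i` is smaller
than `j`. -/
def php (m : ℕ) : CNF (Fin (m + 1) × (Fin m ⊕ Fin (m + 1))) :=
  (univ.image fun i : Fin (m + 1) => {((i, Sum.inr 0), false)}) ∪
  (univ.image fun i : Fin (m + 1) => {((i, Sum.inr (Fin.last m)), true)}) ∪
  (univ.image fun v : Fin (m + 1) × Fin m =>
    {((v.1, Sum.inr v.2.succ), false), ((v.1, Sum.inr v.2.castSucc), true),
      ((v.1, Sum.inl v.2), true)}) ∪
  ((univ.filter fun v : Fin (m + 1) × Fin (m + 1) × Fin m => v.1 ≠ v.2.1).image fun v =>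
    {((v.1, Sum.inl v.2.2), false), ((v.2.1, Sum.inl v.2.2), false)})

/-- The formula `G` with the variables replaced by table entries: there is a pointer in
`{0, …, M - 1}` for each variable `i` of `G`, and the value of `i` is the entry of the table of `i`
at this pointer. Variables: `(0, i, q)`: the pointer of `i` is `q`; `(1, i, q)`: the pointer of `i`
is smaller than `q`; `(2, i, q)`: the entry `q` of the table of `i`. -/
def idx {I : Type*} [Fintype I] [DecidableEq I] (M : ℕ) (G : CNF I) :
    CNF (Fin 3 × I × Fin (M + 1)) :=
  (univ.image fun i : I => {((1, i, 0), false)}) ∪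
  (univ.image fun i : I => {((1, i, Fin.last M), true)}) ∪
  (univ.image fun v : I × Fin M =>
    {((1, v.1, v.2.succ), false), ((1, v.1, v.2.castSucc), true), ((0, v.1, v.2.castSucc), true)}) ∪
  G.biUnion fun C => univ.image fun p : I → Fin (M + 1) =>
    (C.image fun l => ((0, l.1, p l.1), false)) ∪ C.image fun l => ((2, l.1, p l.1), l.2)

open Classical in
/-- The formula `H` with all variables `a` addressed indirectly: `a` is replaced by the variable
`inl y` of a pool, where `y` is the address in the `g` variables `inr (a, j)`. (For each clause and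
all values `s` of the addresses there is one clause; tautologies are omitted.) -/
noncomputable def adr {A : Type*} [Fintype A] [DecidableEq A] (g : ℕ) (H : CNF A) :
    CNF ((Fin g → Bool) ⊕ (A × Fin g)) :=
  (H.biUnion fun D => univ.image fun s : A → Fin g → Bool =>
    (D.biUnion fun l => univ.image fun j : Fin g => (Sum.inr (l.1, j), !(s l.1 j))) ∪
      D.image fun l => (Sum.inl (s l.1), l.2)).filter fun C => ¬ Taut C

/-- The pointers of the formula `form m` have `tt m` bits. -/
def tt (m : ℕ) : ℕ := 4 * Nat.clog 2 (512 * ((m + 1) * (2 * m + 1)) ^ 5)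

/-- The variables of the formula `form m`. -/
abbrev FV (m : ℕ) : Type :=
  (Fin (3 * tt m) → Bool) ⊕
    ((Fin 3 × (Fin (m + 1) × (Fin m ⊕ Fin (m + 1))) × Fin (2 ^ tt m + 1)) × Fin (3 * tt m))

/-- The formula: the pigeonhole principle with the variables replaced by table entries, all variables
addressed indirectly. -/
noncomputable def form (m : ℕ) : CNF (FV m) := adr (3 * tt m) (idx (2 ^ tt m) (php m))

end Pool.Agent.DAO
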