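import Pool.Agent.DAO.St

/-!
# Module EMB: the embedding
-/

set_option autoImplicit false

namespace Pool.Agent.DAO

open Finset Pool.Agent.OB Pool.Agent.DGO

namespace MEMB

variable {I : Type} {t g : ℕ}

theorem emb_inl (e : (Fin t → Bool) ≃ Fin (2 ^ t))
    (pos : Fin 3 × I × Fin (2 ^ t + 1) → Fin g → Bool) (p : Ptr I t) (V : Arr I t)
    (y : Fin g → Bool) (h : ∃ a, pos a = y) :
    emb e pos p V (Sum.inl y) = atv e p V h.choose := by
  exact dif_pos h

theorem emb_none (e : (Fin t → Bool) ≃ Fin (2 ^ t))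
    (pos : Fin 3 × I × Fin (2 ^ t + 1) → Fin g → Bool) (p : Ptr I t) (V : Arr I t)
    (y : Fin g → Bool) (h : ¬ ∃ a, pos a = y) : emb e pos p V (Sum.inl y) = false := by
  exact dif_neg h

theorem emb_pos (e : (Fin t → Bool) ≃ Fin (2 ^ t))
    (pos : Fin 3 × I × Fin (2 ^ t + 1) → Fin g → Bool) (hpos : Function.Injective pos)
    (p : Ptr I t) (V : Arr I t) (a : Fin 3 × I × Fin (2 ^ t + 1)) :
    emb e pos p V (Sum.inl (pos a)) = atv e p V a := by
  have h : ∃ b, pos b = pos a := ⟨a, rfl⟩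
  rw [emb_inl e pos p V _ h]
  rw [hpos h.choose_spec]

theorem three (x : Fin 3) (h0 : x ≠ 0) (h1 : x ≠ 1) : x = 2 := by
  revert x
  decide

theorem atv_V (e : (Fin t → Bool) ≃ Fin (2 ^ t)) (p : Ptr I t) (V V' : Arr I t)
    (a : Fin 3 × I × Fin (2 ^ t + 1)) (ha : a.1 ≠ 2) : atv e p V a = atv e p V' a := by
  unfold atv
  by_cases h0 : a.1 = 0
  · rw [if_pos h0, if_pos h0]
  · rw [if_neg h0, if_neg h0]
    by_cases h1 : a.1 = 1
    · rw [if_pos h1, if_pos h1]
    · exact absurd (three _ h0 h1) ha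

theorem atv_p (e : (Fin t → Bool) ≃ Fin (2 ^ t)) (p p' : Ptr I t) (V : Arr I t)
    (a : Fin 3 × I × Fin (2 ^ t + 1)) (ha : a.1 = 2) : atv e p V a = atv e p' V a := by
  unfold atv
  have h0 : a.1 ≠ 0 := by
    rw [ha]
    decide
  have h1 : a.1 ≠ 1 := by
    rw [ha]
    decide
  rw [if_neg h0, if_neg h1, if_neg h0, if_neg h1]

end MEMB

open MEMB in
theorem t_EMB : S_EMB := by
  intro I t g e pos A₀ B₀ hpos hA hB _
  refine ⟨fun p V a => emb_pos e pos hpos p V a, fun y hy p V V' => ?_, fun y hy p p' V => ?_⟩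
  · by_cases h : ∃ a, pos a = y
    · obtain ⟨a, rfl⟩ := h
      rw [emb_pos e pos hpos, emb_pos e pos hpos]
      exact atv_V e p V V' a fun h2 => hy (hB a h2)
    · rw [emb_none e pos p V y h, emb_none e pos p V' y h]
  · by_cases h : ∃ a, pos a = y
    · obtain ⟨a, rfl⟩ := h
      rw [emb_pos e pos hpos, emb_pos e pos hpos]
      refine atv_p e p p' V a ?_
      by_contra h2
      exact hy (hA a h2)
    · rw [emb_none e pos p V y h, emb_none e pos p' V y h]

end Pool.Agent.DAO
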