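import Pool.Agent.DAO.St

/-!
# Project DAO, module IDX: the formula with tables
-/

set_option autoImplicit false

namespace Pool.Agent.DAO

open Finset Pool.Agent.OB Pool.Agent.DGO

namespace MIDX

variable {I : Type} [Fintype I] [DecidableEq I] {M : ℕ}

/-- The clause of the fourth kind. -/
def cl (C : Clause I) (p : I → Fin (M + 1)) : Clause (Fin 3 × I × Fin (M + 1)) :=
  (C.image fun l => ((0, l.1, p l.1), false)) ∪ C.image fun l => ((2, l.1, p l.1), l.2)

theorem mem_idx {G : CNF I} {D : Clause (Fin 3 × I × Fin (M + 1))} : D ∈ idx M G ↔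
    (∃ i, D = {((1, i, 0), false)}) ∨ (∃ i, D = {((1, i, Fin.last M), true)}) ∨
    (∃ (i : I) (q : Fin M), D = {((1, i, q.succ), false), ((1, i, q.castSucc), true),
      ((0, i, q.castSucc), true)}) ∨
    ∃ C ∈ G, ∃ p : I → Fin (M + 1), D = cl C p := by
  unfold idx cl
  simp only [mem_union, mem_image, mem_univ, true_and, mem_biUnion, Prod.exists]
  constructor
  · rintro (((⟨i, rfl⟩ | ⟨i, rfl⟩) | ⟨i, j, rfl⟩) | ⟨C, hC, p, rfl⟩)
    · exact Or.inl ⟨i, rfl⟩
    · exact Or.inr (Or.inl ⟨i, rfl⟩)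
    · exact Or.inr (Or.inr (Or.inl ⟨i, j, rfl⟩))
    · exact Or.inr (Or.inr (Or.inr ⟨C, hC, p, rfl⟩))
  · rintro (⟨i, rfl⟩ | ⟨i, rfl⟩ | ⟨i, j, rfl⟩ | ⟨C, hC, p, rfl⟩)
    · exact Or.inl (Or.inl (Or.inl ⟨i, rfl⟩))
    · exact Or.inl (Or.inl (Or.inr ⟨i, rfl⟩))
    · exact Or.inl (Or.inr ⟨i, j, rfl⟩)
    · exact Or.inr ⟨C, hC, p, rfl⟩

theorem unsat {G : CNF I} (hG : Unsat G) : Unsat (idx M G) := by
  intro x
  by_contra hx
  have hS : ∀ C ∈ idx M G, Sat x C := fun C hC => by
    by_contra h
    exact hx ⟨C, hC, h⟩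
  have h1 : ∀ i, ∃ q : Fin M, x (0, i, q.castSucc) = true := by
    intro i
    by_contra hi
    have hi' : ∀ q : Fin M, x (0, i, q.castSucc) ≠ true := fun q h => hi ⟨q, h⟩
    have h2 : ∀ j : Fin (M + 1), x (1, i, j) = false := by
      intro j
      induction j using Fin.induction with
      | zero =>
        obtain ⟨l, hl, hl2⟩ := hS {((1, i, 0), false)} (mem_idx.2 (Or.inl ⟨i, rfl⟩))
        rw [mem_singleton] at hl
        rw [hl] at hl2
        exact hl2
      | succ j ih =>
        obtain ⟨l, hl, hl2⟩ := hS _ (mem_idx.2 (Or.inr (Or.inr (Or.inl ⟨i, j, rfl⟩))))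
        simp only [mem_insert, mem_singleton] at hl
        rcases hl with rfl | rfl | rfl
        · exact hl2
        · have h3 : x (1, i, j.castSucc) = true := hl2
          rw [ih] at h3
          exact absurd h3 (by decide)
        · exact absurd hl2 (hi' j)
    obtain ⟨l, hl, hl2⟩ := hS _ (mem_idx.2 (Or.inr (Or.inl ⟨i, rfl⟩)))
    rw [mem_singleton] at hl
    rw [hl] at hl2
    have h3 : x (1, i, Fin.last M) = true := hl2
    rw [h2] at h3
    exact absurd h3 (by decide)
  choose q hq using h1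
  obtain ⟨C, hC, hCz⟩ := hG fun i => x (2, i, (q i).castSucc)
  obtain ⟨l, hl, hl2⟩ := hS _ (mem_idx.2 (Or.inr (Or.inr (Or.inr
    ⟨C, hC, fun i => (q i).castSucc, rfl⟩))))
  unfold cl at hl
  rw [mem_union, mem_image, mem_image] at hl
  rcases hl with ⟨l', _, rfl⟩ | ⟨l', hl', rfl⟩
  · have h3 : x (0, l'.1, (q l'.1).castSucc) = false := hl2
    rw [hq] at h3
    exact absurd h3 (by decide)
  · exact hCz ⟨l', hl', hl2⟩

theorem width {G : CNF I} (hG : ∀ C ∈ G, C.card ≤ 3) : ∀ D ∈ idx M G, D.card ≤ 6 := by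
  intro D hD
  rcases mem_idx.1 hD with ⟨i, rfl⟩ | ⟨i, rfl⟩ | ⟨i, j, rfl⟩ | ⟨C, hC, p, rfl⟩
  · rw [card_singleton]
    omega
  · rw [card_singleton]
    omega
  · refine (card_insert_le _ _).trans ?_
    have h1 := card_insert_le ((1, i, j.castSucc), true)
      ({((0, i, j.castSucc), true)} : Clause (Fin 3 × I × Fin (M + 1)))
    rw [card_singleton] at h1
    omega
  · have h1 := hG C hC
    unfold cl
    refine (card_union_le _ _).trans ?_
    have h2 : (C.image fun l => (((0 : Fin 3), l.1, p l.1), false)).card ≤ C.card := card_image_le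
    have h3 : (C.image fun l => (((2 : Fin 3), l.1, p l.1), l.2)).card ≤ C.card := card_image_le
    omega

theorem count_cl (C : Clause I) (hC : C.card ≤ 3) :
    ((univ : Finset (I → Fin (M + 1))).image fun p => cl C p).card ≤ (M + 1) ^ 3 := by
  obtain ⟨S, hS⟩ : ∃ S : Finset I, S = C.image Prod.fst := ⟨_, rfl⟩
  have hSc : S.card ≤ 3 := by
    rw [hS]
    exact card_image_le.trans hC
  have hsub : ((univ : Finset (I → Fin (M + 1))).image fun p => cl C p) ⊆
      (univ : Finset ({i // i ∈ S} → Fin (M + 1))).image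
        fun r => cl C fun i => if h : i ∈ S then r ⟨i, h⟩ else 0 := by
    intro D hD
    obtain ⟨p, -, rfl⟩ := mem_image.1 hD
    refine mem_image.2 ⟨fun i => p i.1, mem_univ _, ?_⟩
    have hp : ∀ l ∈ C, (if h : l.1 ∈ S then p l.1 else 0) = p l.1 := by
      intro l hl
      have h : l.1 ∈ S := by
        rw [hS]
        exact mem_image_of_mem Prod.fst hl
      rw [dif_pos h]
    unfold cl
    congr 1
    · refine image_congr fun l hl => ?_
      show (((0 : Fin 3), l.1, (if h : l.1 ∈ S then p l.1 else 0)), false) = _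
      rw [hp l hl]
    · refine image_congr fun l hl => ?_
      show (((2 : Fin 3), l.1, (if h : l.1 ∈ S then p l.1 else 0)), l.2) = _
      rw [hp l hl]
  calc ((univ : Finset (I → Fin (M + 1))).image fun p => cl C p).card
      ≤ ((univ : Finset ({i // i ∈ S} → Fin (M + 1))).image
        fun r => cl C fun i => if h : i ∈ S then r ⟨i, h⟩ else 0).card := card_le_card hsub
    _ ≤ (univ : Finset ({i // i ∈ S} → Fin (M + 1))).card := card_image_le
    _ = (M + 1) ^ S.card := by
      rw [card_univ, Fintype.card_fun, Fintype.card_fin, Fintype.card_coe]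
    _ ≤ (M + 1) ^ 3 := Nat.pow_le_pow_right (by omega) hSc

theorem count {G : CNF I} (hG : ∀ C ∈ G, C.card ≤ 3) : (idx M G).card ≤
    2 * Fintype.card I + Fintype.card I * M + G.card * (M + 1) ^ 3 := by
  unfold idx
  refine (card_union_le _ _).trans ?_
  refine add_le_add ?_ (card_biUnion_le_card_mul _ _ _ fun C hC => count_cl C (hG C hC))
  refine (card_union_le _ _).trans ?_
  refine add_le_add ?_ ?_
  · refine (card_union_le _ _).trans ?_
    rw [two_mul]
    exact add_le_add (card_image_le.trans (le_of_eq card_univ))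
      (card_image_le.trans (le_of_eq card_univ))
  · refine card_image_le.trans (le_of_eq ?_)
    rw [card_univ, Fintype.card_prod, Fintype.card_fin]

end MIDX

/-- IDX: the formula with tables. -/
theorem t_IDX : S_IDX := by
  intro I _ _ M G hG
  exact ⟨MIDX.unsat, MIDX.width hG, MIDX.count hG⟩

end Pool.Agent.DAO
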