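import Pool.Agent.DAO.St

/-!
# Project DAO, module NUA: the numbers, part 1
-/

set_option autoImplicit false

namespace Pool.Agent.DAO

namespace MNUA

theorem four_mul_le {a : ℕ} (h : 4 ≤ a) : 4 * a ≤ 2 ^ a := by
  induction a, h using Nat.le_induction with
  | base => norm_num
  | succ k hk ih =>
    rw [pow_succ]
    omega

/-- The basic facts. -/
structure Basic (m n a : ℕ) : Prop where
  hm : 10 ≤ m
  hn : n = (m + 1) * (2 * m + 1)
  lo : 512 * n ^ 5 ≤ 2 ^ a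
  up : 2 ^ a ≤ 1024 * n ^ 5
  n_ge : 100 ≤ n
  m_le : m + 1 ≤ n
  n_le : n ≤ 2 ^ a
  n_le2 : n ≤ 3 * m ^ 2
  a_ge : 9 ≤ a

theorem basic {m n a : ℕ} (hm : 10 ≤ m) (hn : n = (m + 1) * (2 * m + 1))
    (ha : a = Nat.clog 2 (512 * n ^ 5)) : Basic m n a := by
  have hn1 : n = 2 * m ^ 2 + 3 * m + 1 := by rw [hn]; ring
  have hnge : 100 ≤ n := by rw [hn1]; nlinarith
  have hlo : 512 * n ^ 5 ≤ 2 ^ a := by rw [ha]; exact Nat.le_pow_clog one_lt_two _
  have hn5 : n ≤ n ^ 5 := Nat.le_self_pow (by norm_num) n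
  have hage : 9 ≤ a := by
    by_contra h
    have h1 : (2 : ℕ) ^ a ≤ 2 ^ 8 := Nat.pow_le_pow_right (by norm_num) (by omega)
    have h2 : (2 : ℕ) ^ 8 = 256 := by norm_num
    omega
  have hup : 2 ^ a ≤ 1024 * n ^ 5 := by
    have h1 : 2 ^ (Nat.clog 2 (512 * n ^ 5)).pred < 512 * n ^ 5 :=
      Nat.pow_pred_clog_lt_self one_lt_two (by omega)
    rw [← ha] at h1
    obtain ⟨b, rfl⟩ : ∃ b, a = b + 1 := ⟨a - 1, by omega⟩
    rw [Nat.pred_succ] at h1
    rw [pow_succ]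
    omega
  exact
    { hm := hm
      hn := hn
      lo := hlo
      up := hup
      n_ge := hnge
      m_le := by rw [hn1]; nlinarith
      n_le := by omega
      n_le2 := by rw [hn1]; nlinarith
      a_ge := hage }

section

variable {m n a : ℕ} (h : Basic m n a)

include h

omit h in
/-- `X = 2 ^ (4 a)` is large. -/
theorem X_ge : 2 ^ a ≤ 2 ^ (4 * a) := Nat.pow_le_pow_right (by norm_num) (by omega)

theorem four_a : 4 * a ≤ 2 ^ a := four_mul_le (by have := h.a_ge; omega)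

theorem pow_ge : 512 ≤ 2 ^ a := by
  calc 512 = 2 ^ 9 := by norm_num
    _ ≤ 2 ^ a := Nat.pow_le_pow_right (by norm_num) h.a_ge

/-- The second summand of `N`. -/
theorem second : 3 * (n * (2 ^ (4 * a) + 1)) * (3 * (4 * a)) ≤ 2 ^ (3 * (4 * a)) := by
  have h1 := four_a h
  have h2 := h.n_le
  have h3 : 2 ^ (4 * a) + 1 ≤ 2 * 2 ^ (4 * a) := by
    have := Nat.one_le_two_pow (n := 4 * a)
    omega
  have h4 := h.a_ge
  calc 3 * (n * (2 ^ (4 * a) + 1)) * (3 * (4 * a))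
      ≤ 3 * (2 ^ a * (2 * 2 ^ (4 * a))) * (3 * 2 ^ a) := by gcongr
    _ = 18 * 2 ^ (6 * a) := by
        rw [show 6 * a = a + 4 * a + a by ring, pow_add, pow_add]
        ring
    _ ≤ 2 ^ 5 * 2 ^ (6 * a) := by gcongr; norm_num
    _ = 2 ^ (5 + 6 * a) := by rw [pow_add]
    _ ≤ 2 ^ (3 * (4 * a)) := Nat.pow_le_pow_right (by norm_num) (by omega)

/-- `2 ^ (3 t + 1) ≤ m ^ 500` -/
theorem upper : 2 ^ (3 * (4 * a) + 1) ≤ m ^ 500 := by
  have hm := h.hm
  have h8 : 2 ^ 3 ≤ m := by omega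
  calc 2 ^ (3 * (4 * a) + 1) = 2 * (2 ^ a) ^ 12 := by
        rw [← pow_mul, pow_succ]
        ring
    _ ≤ 2 * (1024 * n ^ 5) ^ 12 := by
        gcongr
        exact h.up
    _ ≤ 2 * (1024 * (3 * m ^ 2) ^ 5) ^ 12 := by
        gcongr
        exact h.n_le2
    _ ≤ 2 * (1024 * (4 * m ^ 2) ^ 5) ^ 12 := by
        gcongr
        norm_num
    _ = (2 ^ 3) ^ 80 * 2 * m ^ 120 := by
        rw [show (4 : ℕ) = 2 ^ 2 by norm_num, show (1024 : ℕ) = 2 ^ 10 by norm_num]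
        ring
    _ ≤ m ^ 80 * m * m ^ 120 := by
        gcongr
        omega
    _ = m ^ 201 := by ring
    _ ≤ m ^ 500 := Nat.pow_le_pow_right (by omega) (by norm_num)

/-- The number of the clauses. -/
theorem clauses : (2 * n + n * 2 ^ (4 * a) + 4 * (m + 1) ^ 3 * (2 ^ (4 * a) + 1) ^ 3) *
    2 ^ (6 * (3 * (4 * a))) ≤ (2 ^ (3 * (4 * a))) ^ 500 := by
  have h1 : n ≤ 2 ^ (4 * a) := h.n_le.trans X_ge
  have h2 : m + 1 ≤ 2 ^ (4 * a) := h.m_le.trans h1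
  have h3 : 512 ≤ 2 ^ (4 * a) := (pow_ge h).trans X_ge
  have e1 : 2 ^ (6 * (3 * (4 * a))) = (2 ^ (4 * a)) ^ 18 := by
    rw [← pow_mul]
    congr 1
    ring
  have e2 : (2 ^ (4 * a)) ^ 25 ≤ (2 ^ (3 * (4 * a))) ^ 500 := by
    rw [← pow_mul, ← pow_mul]
    exact Nat.pow_le_pow_right (by norm_num) (by omega)
  refine le_trans ?_ e2
  rw [e1]
  clear e1 e2
  generalize 2 ^ (4 * a) = X at *
  have hX1 : 1 ≤ X := by omega
  have g1 : 2 * n + n * X + 4 * (m + 1) ^ 3 * (X + 1) ^ 3 ≤ X ^ 7 := by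
    calc 2 * n + n * X + 4 * (m + 1) ^ 3 * (X + 1) ^ 3
        ≤ 2 * X + X * X + 4 * X ^ 3 * (2 * X) ^ 3 := by
          gcongr
          omega
      _ ≤ 2 * X ^ 6 + X ^ 6 + 32 * X ^ 6 := by
          have g2 : X ≤ X ^ 6 := Nat.le_self_pow (by norm_num) X
          have g3 : X * X ≤ X ^ 6 := by
            calc X * X = X ^ 2 := by ring
              _ ≤ X ^ 6 := Nat.pow_le_pow_right hX1 (by norm_num)
          have g4 : 4 * X ^ 3 * (2 * X) ^ 3 = 32 * X ^ 6 := by ring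
          omega
      _ = 35 * X ^ 6 := by ring
      _ ≤ X * X ^ 6 := by
          gcongr
          omega
      _ = X ^ 7 := by ring
  calc (2 * n + n * X + 4 * (m + 1) ^ 3 * (X + 1) ^ 3) * X ^ 18 ≤ X ^ 7 * X ^ 18 := by gcongr
    _ = X ^ 25 := by ring

theorem eight : 2 ^ (2 * a + 5) * (2 * n * (2 ^ (4 * a) + 1)) ≤ 2 ^ (3 * (4 * a)) := by
  have h2 := h.n_le
  have h3 : 2 ^ (4 * a) + 1 ≤ 2 * 2 ^ (4 * a) := by
    have := Nat.one_le_two_pow (n := 4 * a)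
    omega
  have h4 := h.a_ge
  calc 2 ^ (2 * a + 5) * (2 * n * (2 ^ (4 * a) + 1))
      ≤ 2 ^ (2 * a + 5) * (2 * 2 ^ a * (2 * 2 ^ (4 * a))) := by gcongr
    _ = 2 ^ (2 * a + 5) * 2 ^ a * 2 ^ (4 * a) * 2 ^ 2 := by ring
    _ = 2 ^ (7 * a + 7) := by
        rw [← pow_add, ← pow_add, ← pow_add]
        congr 1
        ring
    _ ≤ 2 ^ (3 * (4 * a)) := Nat.pow_le_pow_right (by norm_num) (by omega)

/-- The condition for the counting of the protocols. -/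
theorem protocols : 4 * n * (256 * n ^ 5) ^ n * 4 ^ (n * (4 * a) + 3 * n + 1 + m) ≤
    2 ^ ((2 ^ a) ^ 2 / 2) := by
  have h1 : 256 * n ^ 5 ≤ 2 ^ a := by
    have := h.lo
    omega
  have h2 : n ≤ 2 ^ n := Nat.lt_two_pow_self.le
  have h3 : a ≤ 2 ^ a := Nat.lt_two_pow_self.le
  have hm := h.m_le
  have hn := h.n_ge
  calc 4 * n * (256 * n ^ 5) ^ n * 4 ^ (n * (4 * a) + 3 * n + 1 + m)
      ≤ 4 * 2 ^ n * (2 ^ a) ^ n * 4 ^ (n * (4 * a) + 3 * n + 1 + m) := by gcongr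
    _ = 2 ^ (2 + n + a * n + 2 * (n * (4 * a) + 3 * n + 1 + m)) := by
        rw [pow_add 2 _ (2 * _), pow_add 2 _ (a * n), pow_add 2 2 n, pow_mul 2 a n,
          pow_mul 2 2 (n * (4 * a) + 3 * n + 1 + m)]
        norm_num
    _ ≤ 2 ^ ((2 ^ a) ^ 2 / 2) := by
        refine Nat.pow_le_pow_right (by norm_num) ?_
        rw [Nat.le_div_iff_mul_le (by norm_num)]
        have g1 : n ≤ n ^ 5 := Nat.le_self_pow (by norm_num) n
        have g2 : 512 * n ≤ 2 ^ a := by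
          have := h.lo
          omega
        have g3 : 1 ≤ 2 ^ a := Nat.one_le_two_pow
        calc (2 + n + a * n + 2 * (n * (4 * a) + 3 * n + 1 + m)) * 2
            ≤ (18 * a + 20) * n := by nlinarith
          _ ≤ (18 * 2 ^ a + 20 * 2 ^ a) * n := by
              gcongr
              omega
          _ ≤ 2 ^ a * (512 * n) := by nlinarith
          _ ≤ 2 ^ a * 2 ^ a := by gcongr
          _ = (2 ^ a) ^ 2 := by ring

end

/-- The bound for `a`. -/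
theorem a_le {m n a : ℕ} (hm : 10 ≤ m) (hn : n = (m + 1) * (2 * m + 1))
    (ha : a = Nat.clog 2 (512 * n ^ 5)) : a ≤ 25 + 10 * Nat.log 2 m := by
  have h1 : m < 2 ^ (Nat.log 2 m + 1) := Nat.lt_pow_succ_log_self one_lt_two m
  have h2 : m + 1 ≤ 2 ^ (Nat.log 2 m + 1) := h1
  have h3 : 2 * m + 1 ≤ 2 ^ (Nat.log 2 m + 2) := by
    rw [pow_succ _ (Nat.log 2 m + 1)]
    omega
  have h4 : 512 * n ^ 5 ≤ 2 ^ (24 + 10 * Nat.log 2 m) := by
    calc 512 * n ^ 5 ≤ 2 ^ 9 * (2 ^ (Nat.log 2 m + 1) * 2 ^ (Nat.log 2 m + 2)) ^ 5 := by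
          rw [hn]
          gcongr
          norm_num
      _ = 2 ^ (24 + 10 * Nat.log 2 m) := by
          rw [← pow_add, ← pow_mul, ← pow_add]
          congr 1
          ring
  have h5 : Nat.clog 2 (512 * n ^ 5) ≤ 24 + 10 * Nat.log 2 m := Nat.clog_le_of_le_pow h4
  omega

end MNUA

open MNUA

theorem t_NUA : S_NUA := by
  intro m n a t N hm hn ha ht hN
  have h := basic hm hn ha
  subst ht
  have h1 := second h
  have hlo : 2 ^ (3 * (4 * a)) ≤ N := by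
    rw [hN]
    exact Nat.le_add_right _ _
  have hup : N ≤ 2 ^ (3 * (4 * a) + 1) := by
    rw [hN, pow_succ]
    omega
  have hage := h.a_ge
  have h2a : 2 ^ a ≤ 2 ^ (3 * (4 * a)) := Nat.pow_le_pow_right (by norm_num) (by omega)
  have h4a := four_a h
  refine ⟨?_, hup.trans (upper h), hlo, hup, ?_, ?_, by omega, ?_, eight h, h.lo, protocols h,
    a_le hm hn ha⟩
  · have := h.m_le
    have := h.n_le
    omega
  · exact (clauses h).trans (Nat.pow_le_pow_left hlo _)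
  · have h2 : 3 * (4 * a) ≤ Nat.log 2 N := Nat.le_log_of_pow_le one_lt_two hlo
    omega
  · have h3 : 2 ^ (a + 1) ≤ 2 ^ (3 * (4 * a)) := Nat.pow_le_pow_right (by norm_num) (by omega)
    rw [pow_succ] at h3
    omega

end Pool.Agent.DAO
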