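import Pool.Agent.DAO.St

/-!
# Project DAO: the numbers, part 3
-/

set_option autoImplicit false

namespace Pool.Agent.DAO

namespace MNUC

theorem key (q : ℕ) (hq : 10 ≤ q) : (12 * (55 + 40 * q) ^ 2 + 5) * 4 ≤ 8 ^ q := by
  induction q, hq using Nat.le_induction with
  | base => norm_num
  | succ q hq ih =>
    rw [pow_succ 8 q]
    nlinarith [ih, Nat.zero_le q]

/-- The exponent. -/
theorem expo {m F q a : ℕ} (hF : 44 ≤ F) (hm : 2 ^ F ≤ m) (hq : q = (F + 1) / 4)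
    (ha : a ≤ 25 + 10 * F) :
    2 ^ (q + 1) + (3 * ((4 * a ^ 2 + 1) * 2 ^ (q + 1)) + 1) ≤ m := by
  have hq10 : 10 ≤ q := by omega
  have h1 : 4 * q ≤ F + 1 := by omega
  have h2 : a ≤ 55 + 40 * q := by omega
  have h3 := key q hq10
  have h4 : a ^ 2 ≤ (55 + 40 * q) ^ 2 := Nat.pow_le_pow_left h2 2
  have h5 : 1 ≤ 2 ^ (q + 1) := Nat.one_le_two_pow
  have h6 : 2 ^ (q + 1) * 8 ^ q = 2 * 2 ^ (4 * q) := by
    rw [show (8 : ℕ) = 2 ^ 3 by norm_num, ← pow_mul, ← pow_add, ← pow_succ']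
    congr 1
    ring
  have h7 : 2 ^ (4 * q) ≤ 2 ^ (F + 1) := Nat.pow_le_pow_right (by norm_num) h1
  have h8 : 2 ^ (F + 1) = 2 * 2 ^ F := pow_succ' 2 F
  have h9 : 2 ^ (q + 1) * ((12 * (55 + 40 * q) ^ 2 + 5) * 4) ≤ 2 ^ (q + 1) * 8 ^ q :=
    Nat.mul_le_mul_left _ h3
  have h10 : 2 ^ (q + 1) * (12 * a ^ 2 + 5) ≤ 2 ^ (q + 1) * (12 * (55 + 40 * q) ^ 2 + 5) :=
    Nat.mul_le_mul_left _ (by omega)
  generalize 2 ^ (q + 1) = k at *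
  nlinarith

/-- The bound for the size in natural numbers. -/
theorem size {m F q N w L : ℕ} (hm1 : m < 2 ^ (F + 1)) (hq : q = (F + 1) / 4)
    (hN : N ≤ m ^ 500)
    (hw : ((max w L : ℕ) : ℝ) < (2 : ℝ) ^ ((N : ℝ) ^ (1 / 2000 : ℝ))) :
    max w L < 2 ^ (2 ^ (q + 1)) := by
  have h1 : N ≤ (2 ^ (q + 1)) ^ 2000 := by
    calc N ≤ m ^ 500 := hN
      _ ≤ (2 ^ (F + 1)) ^ 500 := Nat.pow_le_pow_left hm1.le 500
      _ = 2 ^ ((F + 1) * 500) := (pow_mul 2 (F + 1) 500).symm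
      _ ≤ 2 ^ ((q + 1) * 2000) :=
          Nat.pow_le_pow_right (by norm_num) (by subst hq; clear hw; clear hN; omega)
      _ = (2 ^ (q + 1)) ^ 2000 := pow_mul 2 (q + 1) 2000
  have h2 : (N : ℝ) ^ (1 / 2000 : ℝ) ≤ ((2 ^ (q + 1) : ℕ) : ℝ) := by
    have h3 : (N : ℝ) ≤ ((2 ^ (q + 1) : ℕ) : ℝ) ^ (2000 : ℕ) := by exact_mod_cast h1
    calc (N : ℝ) ^ (1 / 2000 : ℝ)
        ≤ (((2 ^ (q + 1) : ℕ) : ℝ) ^ (2000 : ℕ)) ^ (1 / 2000 : ℝ) :=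
          Real.rpow_le_rpow (Nat.cast_nonneg _) h3 (by norm_num)
      _ = ((2 ^ (q + 1) : ℕ) : ℝ) := by
          rw [← Real.rpow_natCast, ← Real.rpow_mul (Nat.cast_nonneg _)]
          norm_num
  have h4 : ((max w L : ℕ) : ℝ) < ((2 ^ (2 ^ (q + 1)) : ℕ) : ℝ) := by
    calc ((max w L : ℕ) : ℝ) < (2 : ℝ) ^ ((N : ℝ) ^ (1 / 2000 : ℝ)) := hw
      _ ≤ (2 : ℝ) ^ (((2 ^ (q + 1) : ℕ) : ℝ)) :=
          Real.rpow_le_rpow_of_exponent_le (by norm_num) h2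
      _ = ((2 ^ (2 ^ (q + 1)) : ℕ) : ℝ) := by
          rw [Real.rpow_natCast]
          push_cast
          rfl
  exact_mod_cast h4

theorem main {m F q n a N w L : ℕ} (hF : 44 ≤ F) (hm : 2 ^ F ≤ m) (hm1 : m < 2 ^ (F + 1))
    (hq : q = (F + 1) / 4) (hn : m ^ 2 ≤ n) (ha : a ≤ 25 + 10 * F) (hN : N ≤ m ^ 500)
    (hw : ((max w L : ℕ) : ℝ) < (2 : ℝ) ^ ((N : ℝ) ^ (1 / 2000 : ℝ))) :
    (L + 1) * 2 ^ (3 * ((4 * a ^ 2 + 1) * Nat.clog 2 w) + 1) ≤ 2 ^ m ∧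
    (L + 1) * 2 ^ (3 * ((4 * a ^ 2 + 1) * Nat.clog 2 w) + 1) * 2 < n ^ (m / 3) := by
  have h1 := size hm1 hq hN hw
  have h2 := expo hF hm hq ha
  have hwk : w < 2 ^ (2 ^ (q + 1)) := lt_of_le_of_lt (le_max_left _ _) h1
  have hLk : L < 2 ^ (2 ^ (q + 1)) := lt_of_le_of_lt (le_max_right _ _) h1
  have h3 : Nat.clog 2 w ≤ 2 ^ (q + 1) := Nat.clog_le_of_le_pow hwk.le
  have h4 : (L + 1) * 2 ^ (3 * ((4 * a ^ 2 + 1) * Nat.clog 2 w) + 1) ≤ 2 ^ m := by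
    calc (L + 1) * 2 ^ (3 * ((4 * a ^ 2 + 1) * Nat.clog 2 w) + 1)
        ≤ 2 ^ (2 ^ (q + 1)) * 2 ^ (3 * ((4 * a ^ 2 + 1) * 2 ^ (q + 1)) + 1) := by
          refine Nat.mul_le_mul hLk (Nat.pow_le_pow_right (by norm_num) ?_)
          have := Nat.mul_le_mul_left (4 * a ^ 2 + 1) h3
          omega
      _ = 2 ^ (2 ^ (q + 1) + (3 * ((4 * a ^ 2 + 1) * 2 ^ (q + 1)) + 1)) := (pow_add _ _ _).symm
      _ ≤ 2 ^ m := Nat.pow_le_pow_right (by norm_num) h2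
  refine ⟨h4, ?_⟩
  have h5 : 2 ^ 10 ≤ m := le_trans (Nat.pow_le_pow_right (by norm_num) (by omega)) hm
  calc (L + 1) * 2 ^ (3 * ((4 * a ^ 2 + 1) * Nat.clog 2 w) + 1) * 2
      ≤ 2 ^ m * 2 := Nat.mul_le_mul_right 2 h4
    _ = 2 ^ (m + 1) := (pow_succ 2 m).symm
    _ < 2 ^ (20 * (m / 3)) := by
        refine Nat.pow_lt_pow_right (by norm_num) ?_
        have : 1024 ≤ m := by simpa using h5
        omega
    _ = ((2 ^ 10) ^ 2) ^ (m / 3) := by rw [← pow_mul 2 10 2, ← pow_mul]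
    _ ≤ (m ^ 2) ^ (m / 3) := Nat.pow_le_pow_left (Nat.pow_le_pow_left h5 2) _
    _ ≤ n ^ (m / 3) := Nat.pow_le_pow_left hn _

end MNUC

theorem t_NUC : S_NUC := by
  refine ⟨2 ^ 44, fun m hm n a N w L hn _ ha _ hN hw => ?_⟩
  have hm0 : m ≠ 0 := by
    have : 0 < 2 ^ 44 := by positivity
    omega
  have hF : 44 ≤ Nat.log 2 m := Nat.le_log_of_pow_le (by norm_num) hm
  exact MNUC.main hF (Nat.pow_log_le_self 2 hm0) (Nat.lt_pow_succ_log_self (by norm_num) m) rfl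
    hn ha hN hw

end Pool.Agent.DAO
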