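import Pool.Agent.DAO.St

/-!
# Project DAO, module NUD (helper34)
-/

set_option autoImplicit false

namespace Pool.Agent.DAO

theorem t_NUD : S_NUD := by
  intro N s hN hs
  have hN' : (2 : ℝ) ^ (4000 : ℕ) ≤ (N : ℝ) := by
    have h := (Nat.cast_le (α := ℝ)).2 hN
    rwa [Nat.cast_pow] at h
  set y : ℝ := (N : ℝ) ^ (1 / 4000 : ℝ) with hy
  have hy2 : 2 ≤ y := by
    have h1 : ((2 : ℝ) ^ (4000 : ℕ)) ^ (1 / 4000 : ℝ) = 2 := by
      have h2 := Real.pow_rpow_inv_natCast (x := (2 : ℝ)) (n := 4000) (by norm_num) (by norm_num)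
      rw [one_div]
      exact_mod_cast h2
    rw [← h1, hy]
    exact Real.rpow_le_rpow (pow_nonneg (by norm_num) _) hN' (by norm_num)
  have hsq : (N : ℝ) ^ (1 / 2000 : ℝ) = y ^ 2 := by
    rw [hy, ← Real.rpow_natCast, ← Real.rpow_mul (Nat.cast_nonneg N)]
    congr 1
    norm_num
  rw [hsq]
  have h1 : (1 : ℝ) ≤ 2 ^ y := Real.one_le_rpow (by norm_num) (by linarith)
  have h2 : ((2 * s + 1 : ℕ) : ℝ) < 2 ^ (y + 2) := by
    rw [Real.rpow_add (by norm_num)]
    push_cast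
    have h3 : (2 : ℝ) ^ (2 : ℝ) = 4 := by
      rw [Real.rpow_two]
      norm_num
    rw [h3]
    linarith
  refine h2.trans_le (Real.rpow_le_rpow_of_exponent_le (by norm_num) ?_)
  nlinarith

end Pool.Agent.DAO
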