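import Pool.Agent.DAO.St
import Pool.Agent.DGO.St2

/-!
# OBD: an OBDD as an oblivious branching program
-/

set_option autoImplicit false

namespace Pool.Agent.DAO

open Finset Pool.Agent.OB Pool.Agent.DGO

namespace MOBD

section

variable {V : Type} [Fintype V]

/-- the values of `x` at the first `c` variables, those of `z` at the others -/
def mix (ρ : V ≃ Fin (Fintype.card V)) (c : ℕ) (x z : V → Bool) : V → Bool :=
  fun v => if (ρ v : ℕ) < c then x v else z v

/-- equivalent initial segments -/
def R (ρ : V ≃ Fin (Fintype.card V)) (f : (V → Bool) → Bool) (c : ℕ) (x y : V → Bool) : Prop :=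
  ∀ z, f (mix ρ c x z) = f (mix ρ c y z)

theorem R_zero (ρ : V ≃ Fin (Fintype.card V)) (f : (V → Bool) → Bool) (x y : V → Bool) :
    R ρ f 0 x y := by
  intro z
  have h : ∀ u : V → Bool, mix ρ 0 u z = z := by
    intro u
    funext v
    simp [mix]
  rw [h x, h y]

theorem R_card {ρ : V ≃ Fin (Fintype.card V)} {f : (V → Bool) → Bool} {x y : V → Bool}
    (h : R ρ f (Fintype.card V) x y) : f x = f y := by
  have h1 : ∀ u : V → Bool, mix ρ (Fintype.card V) u u = u := by
    intro u
    funext v
    simp [mix]
  have h2 : mix ρ (Fintype.card V) y x = y := by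
    funext v
    simp [mix]
  have h3 := h x
  rwa [h1, h2] at h3

/-- the classes of initial segments -/
def sd (ρ : V ≃ Fin (Fintype.card V)) (f : (V → Bool) → Bool) (c : ℕ) : Setoid (V → Bool) where
  r := R ρ f c
  iseqv := ⟨fun _ _ => rfl, fun h z => (h z).symm, fun h h' z => (h z).trans (h' z)⟩

theorem exists_enc {ρ : V ≃ Fin (Fintype.card V)} {f : (V → Bool) → Bool} {c s s' : ℕ}
    (hs : s' ≤ s)
    (h : ∃ st : (V → Bool) → Fin s', (∀ x y, (∀ v, (ρ v : ℕ) < c → x v = y v) → st x = st y) ∧
      ∀ x y, st x = st y → (∀ v, c ≤ (ρ v : ℕ) → x v = y v) → f x = f y) :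
    ∃ enc : (V → Bool) → Fin s, ∀ x y, enc x = enc y ↔ R ρ f c x y := by
  obtain ⟨st, h1, h2⟩ := h
  have h3 : ∀ x y, st x = st y → R ρ f c x y := by
    intro x y hxy z
    apply h2
    · rw [h1 (mix ρ c x z) x (fun v hv => by simp [mix, hv]),
        h1 (mix ρ c y z) y (fun v hv => by simp [mix, hv])]
      exact hxy
    · intro v hv
      have h4 : ¬ (ρ v : ℕ) < c := not_lt.2 hv
      simp [mix, h4]
  have h5 : ∀ x, R ρ f c (Quotient.out (Quotient.mk (sd ρ f c) x)) x := by
    intro x
    exact Quotient.mk_out (s := sd ρ f c) x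
  refine ⟨fun x => Fin.castLE hs (st (Quotient.out (Quotient.mk (sd ρ f c) x))), ?_⟩
  intro x y
  constructor
  · intro h
    have h6 : st (Quotient.out (Quotient.mk (sd ρ f c) x)) =
        st (Quotient.out (Quotient.mk (sd ρ f c) y)) := Fin.castLE_injective hs h
    have h7 := h3 _ _ h6
    intro z
    rw [← h5 x z, h7 z, h5 y z]
  · intro h
    have h6 : Quotient.mk (sd ρ f c) x = Quotient.mk (sd ρ f c) y := Quotient.sound h
    show Fin.castLE hs (st (Quotient.out (Quotient.mk (sd ρ f c) x))) =
      Fin.castLE hs (st (Quotient.out (Quotient.mk (sd ρ f c) y)))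
    rw [h6]

theorem R_succ [DecidableEq V] {ρ : V ≃ Fin (Fintype.card V)} {f : (V → Bool) → Bool} {c : ℕ}
    {x' x : V → Bool} (v : V) (hv : (ρ v : ℕ) = c) (h : R ρ f c x' x) :
    R ρ f (c + 1) (Function.update x' v (x v)) x := by
  intro z
  have e1 : mix ρ (c + 1) (Function.update x' v (x v)) z =
      mix ρ c x' (Function.update z v (x v)) := by
    funext w
    unfold mix
    by_cases hw : w = v
    · subst hw
      rw [if_pos (by omega), if_neg (by omega)]
      simp
    · have h1 : (ρ w : ℕ) ≠ c := by
        intro h2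
        apply hw
        apply ρ.injective
        apply Fin.ext
        rw [h2, hv]
      by_cases h3 : (ρ w : ℕ) < c
      · rw [if_pos (by omega), if_pos h3, Function.update_of_ne hw]
      · rw [if_neg (by omega), if_neg h3, Function.update_of_ne hw]
  have e2 : mix ρ (c + 1) x z = mix ρ c x (Function.update z v (x v)) := by
    funext w
    unfold mix
    by_cases hw : w = v
    · subst hw
      rw [if_pos (by omega), if_neg (by omega)]
      simp
    · have h1 : (ρ w : ℕ) ≠ c := by
        intro h2
        apply hw
        apply ρ.injective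
        apply Fin.ext
        rw [h2, hv]
      by_cases h3 : (ρ w : ℕ) < c
      · rw [if_pos (by omega), if_pos h3]
      · rw [if_neg (by omega), if_neg h3, Function.update_of_ne hw]
  rw [e1, e2]
  exact h _

end

end MOBD

open MOBD in
open Classical in
/-- **OBD.** -/
theorem t_OBD (hOST : Pool.Agent.DGO.S_OST) : S_OBD := by
  intro V _ hdec l s s' ord k f σ hs hf hσ
  obtain ⟨n, hn⟩ : ∃ n, n = Fintype.card V := ⟨_, rfl⟩
  obtain ⟨ρ, hρ⟩ : ∃ ρ, ρ = ord k := ⟨_, rfl⟩
  rw [← hρ] at hf
  have hσk := hσ k
  rw [← hρ] at hσk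
  have hex : ∀ c : ℕ, ∃ enc : (V → Bool) → Fin s, ∀ x y, enc x = enc y ↔ R ρ f c x y :=
    fun c => exists_enc hs (hOST V ρ s' f hf c)
  choose enc henc using hex
  have hlt : ∀ τ : ℕ, (k : ℕ) * Fintype.card V ≤ τ ∧ τ < k * Fintype.card V + Fintype.card V →
      τ - k * Fintype.card V < Fintype.card V := by
    intro τ h
    omega
  let δ : ℕ → Fin s → Bool → Fin s := fun τ q b =>
    if h : (k : ℕ) * Fintype.card V ≤ τ ∧ τ < k * Fintype.card V + Fintype.card V then
      (if hx : ∃ x, enc (τ - k * Fintype.card V) x = q then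
        enc (τ - k * Fintype.card V + 1)
          (@Function.update V (fun _ => Bool) hdec hx.choose (ρ.symm ⟨τ - k * Fintype.card V, hlt τ h⟩) b)
      else q)
    else q
  let acc : Fin s → Bool := fun q =>
    if hx : ∃ x, enc (Fintype.card V) x = q then f hx.choose else false
  have key : ∀ (x : V → Bool) (τ : ℕ), run δ σ (enc 0 fun _ => false) x τ =
      enc (min (τ - k * Fintype.card V) (Fintype.card V)) x := by
    intro x τ
    induction τ with
    | zero =>
      show enc 0 (fun _ => false) = _
      have h1 : min (0 - (k : ℕ) * Fintype.card V) (Fintype.card V) = 0 := by simp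
      rw [h1]
      exact (henc 0 _ _).2 (R_zero _ _ _ _)
    | succ τ ih =>
      show δ τ (run δ σ (enc 0 fun _ => false) x τ) (x (σ τ)) = _
      rw [ih]
      by_cases h : (k : ℕ) * Fintype.card V ≤ τ ∧ τ < k * Fintype.card V + Fintype.card V
      · have hmin : min (τ - k * Fintype.card V) (Fintype.card V) = τ - k * Fintype.card V :=
          min_eq_left (hlt τ h).le
        have hmin' : min (τ + 1 - k * Fintype.card V) (Fintype.card V) =
            τ - k * Fintype.card V + 1 := by
          have h1 : τ + 1 - (k : ℕ) * Fintype.card V = τ - k * Fintype.card V + 1 := by omega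
          rw [h1]
          exact min_eq_left (hlt τ h)
        have hstτ : σ τ = ρ.symm ⟨τ - k * Fintype.card V, hlt τ h⟩ := by
          rw [← hσk ⟨τ - k * Fintype.card V, hlt τ h⟩]
          congr 1
          show τ = (k : ℕ) * Fintype.card V + (τ - k * Fintype.card V)
          omega
        rw [hmin, hmin']
        have hx : ∃ x', enc (τ - k * Fintype.card V) x' = enc (τ - k * Fintype.card V) x :=
          ⟨x, rfl⟩
        have hδ : δ τ (enc (τ - k * Fintype.card V) x) (x (σ τ)) =
            enc (τ - k * Fintype.card V + 1) (@Function.update V (fun _ => Bool) hdec hx.choose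
              (ρ.symm ⟨τ - k * Fintype.card V, hlt τ h⟩) (x (σ τ))) := by
          show (if h : (k : ℕ) * Fintype.card V ≤ τ ∧ τ < k * Fintype.card V + Fintype.card V then
            (if hx : ∃ x', enc (τ - k * Fintype.card V) x' = enc (τ - k * Fintype.card V) x then
              enc (τ - k * Fintype.card V + 1)
                (@Function.update V (fun _ => Bool) hdec hx.choose
                  (ρ.symm ⟨τ - k * Fintype.card V, hlt τ h⟩) (x (σ τ)))
            else enc (τ - k * Fintype.card V) x)
          else enc (τ - k * Fintype.card V) x) = _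
          rw [dif_pos h, dif_pos hx]
        rw [hδ, hstτ]
        refine (henc _ _ _).2 ?_
        apply R_succ
        · rw [Equiv.apply_symm_apply]
        · exact (henc _ _ _).1 hx.choose_spec
      · have hδ : ∀ q b, δ τ q b = q := by
          intro q b
          show (if h : _ then _ else q) = q
          rw [dif_neg h]
        rw [hδ]
        congr 1
        rw [not_and_or, not_le, not_lt] at h
        rcases h with h | h
        · have h1 : τ - (k : ℕ) * Fintype.card V = 0 := by omega
          have h2 : τ + 1 - (k : ℕ) * Fintype.card V = 0 := by omega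
          rw [h1, h2]
        · rw [min_eq_right (by omega), min_eq_right (by omega)]
  refine ⟨δ, enc 0 fun _ => false, acc, ?_⟩
  intro x
  rw [key]
  have hkl : ((k : ℕ) + 1) * Fintype.card V ≤ l * Fintype.card V :=
    Nat.mul_le_mul_right _ k.2
  rw [Nat.add_mul, Nat.one_mul] at hkl
  rw [min_eq_right (by omega)]
  have hx : ∃ x', enc (Fintype.card V) x' = enc (Fintype.card V) x := ⟨x, rfl⟩
  show f x = if hx : ∃ x', enc (Fintype.card V) x' = enc (Fintype.card V) x then
    f hx.choose else false
  rw [dif_pos hx]
  exact (R_card ((henc _ _ _).1 hx.choose_spec)).symm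

end Pool.Agent.DAO
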