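import Pool.Agent.DAO.St

/-!
OBM: the width may be increased.
-/

set_option autoImplicit false

namespace Pool.Agent.DAO

theorem t_OBM : S_OBM := by
  intro V σ T w w' f h hf
  obtain ⟨δ, q, acc, hx⟩ := hf
  refine ⟨fun t p b => if hp : (p : ℕ) < w then Fin.castLE h (δ t ⟨p, hp⟩ b) else p,
    Fin.castLE h q, fun p => if hp : (p : ℕ) < w then acc ⟨p, hp⟩ else false, ?_⟩
  intro x
  have key : ∀ t : ℕ, run (fun t p b => if hp : (p : ℕ) < w then Fin.castLE h (δ t ⟨p, hp⟩ b)
      else p) σ (Fin.castLE h q) x t = Fin.castLE h (run δ σ q x t) := by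
    intro t
    induction t with
    | zero => rfl
    | succ t ih =>
      have e : ((Fin.castLE h (run δ σ q x t) : Fin w') : ℕ) < w := (run δ σ q x t).isLt
      rw [run, ih]
      simp only [e, dif_pos]
      rfl
  rw [hx, key]
  have e : ((Fin.castLE h (run δ σ q x T) : Fin w') : ℕ) < w := (run δ σ q x T).isLt
  simp only [e, dif_pos]
  rfl

end Pool.Agent.DAO
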