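import Pool.Agent.DAO.St

/-!
# Project DAO: few variables are read more than `k` times
-/

set_option autoImplicit false

namespace Pool.Agent.DAO

open Finset

theorem t_OCC : S_OCC := by
  intro V _ U σ T k hk hT
  have h1 : (U.filter fun v => ((range T).filter fun t => σ t = v).card ≤ k).card +
      (U.filter fun v => ¬ ((range T).filter fun t => σ t = v).card ≤ k).card = U.card :=
    Finset.card_filter_add_card_filter_not _
  have h2 : (U.filter fun v => ¬ ((range T).filter fun t => σ t = v).card ≤ k).card * (k + 1) ≤
      T := by
    have h3 : ∑ v ∈ U.filter (fun v => ¬ ((range T).filter fun t => σ t = v).card ≤ k),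
        ((range T).filter fun t => σ t = v).card ≤ T := by
      rw [Finset.sum_card_fiberwise_eq_card_filter]
      exact (Finset.card_filter_le _ _).trans (Finset.card_range T).le
    refine le_trans ?_ h3
    rw [← smul_eq_mul]
    exact Finset.card_nsmul_le_sum _ (fun v => ((range T).filter fun t => σ t = v).card) (k + 1)
      fun v hv => Nat.lt_of_not_le (Finset.mem_filter.1 hv).2
  have h5 : 2 * ((U.filter fun v => ¬ ((range T).filter fun t => σ t = v).card ≤ k).card * k) ≤
      k * U.card := by
    have h6 : (U.filter fun v => ¬ ((range T).filter fun t => σ t = v).card ≤ k).card * k ≤ T :=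
      le_trans (Nat.mul_le_mul_left _ (Nat.le_succ k)) h2
    omega
  have h7 : 2 * (U.filter fun v => ¬ ((range T).filter fun t => σ t = v).card ≤ k).card ≤
      U.card := by
    refine Nat.le_of_mul_le_mul_left (le_trans (le_of_eq ?_) h5) hk
    ring
  omega

end Pool.Agent.DAO
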