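import Pool.Agent.DAO.St

/-!
# Project DAO, module PLC: the choice of the addresses
-/

set_option autoImplicit false

namespace Pool.Agent.DAO

open Finset Pool.Agent.OB Pool.Agent.DGO

namespace MPLC

theorem nat_card (Y : Type) (p : Fin 3 → Prop) :
    Nat.card {a : Fin 3 × Y // p a.1} = Nat.card {i : Fin 3 // p i} * Nat.card Y := by
  rw [← Nat.card_prod]
  exact Nat.card_congr Equiv.prodSubtypeFstEquivSubtypeProd

theorem card_ne : Nat.card {i : Fin 3 // i ≠ 2} = 2 := by
  rw [Nat.card_eq_fintype_card]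
  rfl

theorem card_eq : Nat.card {i : Fin 3 // i = 2} = 1 := by
  rw [Nat.card_eq_fintype_card]
  rfl

/-- an injection of a finite type into a finite set -/
theorem emb_of {α β : Type} [Finite α] (s : Finset β) (h : Nat.card α ≤ s.card) :
    Nonempty (α ↪ {y // y ∈ s}) := by
  classical
  have : Fintype α := Fintype.ofFinite α
  apply Function.Embedding.nonempty_of_card_le
  rw [Fintype.card_coe, ← Nat.card_eq_fintype_card]
  exact h

end MPLC

open MPLC in
theorem t_PLC : S_PLC := by
  classical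
  intro I _ _ t g A₀ B₀ hd hA hB
  have hc : Nat.card (I × Fin (2 ^ t + 1)) = Fintype.card I * (2 ^ t + 1) := by
    rw [Nat.card_prod, Nat.card_eq_fintype_card, Nat.card_eq_fintype_card, Fintype.card_fin]
  obtain ⟨f⟩ := emb_of (α := {a : Fin 3 × I × Fin (2 ^ t + 1) // a.1 ≠ 2}) A₀ (by
    rw [nat_card (I × Fin (2 ^ t + 1)) (fun i => i ≠ 2), card_ne, hc, ← mul_assoc]
    exact hA)
  obtain ⟨e⟩ := emb_of (α := {a : Fin 3 × I × Fin (2 ^ t + 1) // a.1 = 2}) B₀ (by
    rw [nat_card (I × Fin (2 ^ t + 1)) (fun i => i = 2), card_eq, hc, one_mul]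
    exact hB)
  have hdis : ∀ (y : {y // y ∈ A₀}) (z : {z // z ∈ B₀}), y.1 ≠ z.1 := fun y z hyz =>
    (Finset.disjoint_left.1 hd) y.2 (hyz ▸ z.2)
  refine ⟨fun a => if h : a.1 = 2 then (e ⟨a, h⟩).1 else (f ⟨a, h⟩).1, ?_, ?_, ?_⟩
  · intro a b hab
    simp only at hab
    by_cases h1 : a.1 = 2
    · rw [dif_pos h1] at hab
      by_cases h2 : b.1 = 2
      · rw [dif_pos h2] at hab
        exact congrArg Subtype.val (e.injective (Subtype.ext hab))
      · rw [dif_neg h2] at hab
        exact absurd hab.symm (hdis _ _)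
    · rw [dif_neg h1] at hab
      by_cases h2 : b.1 = 2
      · rw [dif_pos h2] at hab
        exact absurd hab (hdis _ _)
      · rw [dif_neg h2] at hab
        exact congrArg Subtype.val (f.injective (Subtype.ext hab))
  · intro a ha
    simp only
    rw [dif_neg ha]
    exact (f ⟨a, ha⟩).2
  · intro a ha
    simp only
    rw [dif_pos ha]
    exact (e ⟨a, ha⟩).2

end Pool.Agent.DAO
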