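import Pool.Agent.DAO.St

/-!
# DAO, module PRE: functions with prescribed values
-/

set_option autoImplicit false

namespace Pool.Agent.DAO

open Finset Pool.Agent.OB Pool.Agent.DGO

theorem t_PRE : S_PRE := by
  intro X _ _ S c
  have h1 : ((univ : Finset (X → Bool)).filter fun f => ∀ x ∈ S, f x = c x)
      = Fintype.piFinset fun x => if x ∈ S then ({c x} : Finset Bool) else univ := by
    ext f
    rw [mem_filter, Fintype.mem_piFinset]
    constructor
    · rintro ⟨-, h⟩ x
      by_cases hx : x ∈ S
      · rw [if_pos hx, mem_singleton]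
        exact h x hx
      · rw [if_neg hx]
        exact mem_univ _
    · intro h
      refine ⟨mem_univ _, fun x hx => ?_⟩
      have := h x
      rw [if_pos hx, mem_singleton] at this
      exact this
  have h2 : ∀ x : X, (if x ∈ S then ({c x} : Finset Bool) else univ).card
      = if x ∈ S then 1 else 2 := by
    intro x
    by_cases hx : x ∈ S
    · rw [if_pos hx, if_pos hx, card_singleton]
    · rw [if_neg hx, if_neg hx, card_univ, Fintype.card_bool]
  have h3 : 2 ^ S.card = ∏ x : X, if x ∈ S then 2 else 1 := by
    rw [prod_ite_mem, univ_inter, prod_const]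
  have h4 : ∀ x : X, (if x ∈ S then 1 else 2) * (if x ∈ S then 2 else 1) = 2 := by
    intro x
    by_cases hx : x ∈ S
    · rw [if_pos hx, if_pos hx]
    · rw [if_neg hx, if_neg hx]
  rw [h1, Fintype.card_piFinset, prod_congr rfl fun x _ => h2 x, h3, ← prod_mul_distrib,
    prod_congr rfl fun x _ => h4 x, prod_const, card_univ]

end Pool.Agent.DAO
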