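import Pool.Agent.DAO.St

/-!
# Project DAO, module RAM (helper85): two large sets with few alternations
-/

set_option autoImplicit false

namespace Pool.Agent.DAO

open Finset Pool.Agent.OB Pool.Agent.DGO

namespace MRAM

/-- the interval with the number `j` -/
def iv (T len : ℕ) (j : ℕ) : Fin (T / len + 1) := ⟨min j (T / len), by omega⟩

theorem iv_inj {T len t t' : ℕ} (ht : t < T) (ht' : t' < T)
    (h : iv T len (t / len) = iv T len (t' / len)) : t / len = t' / len := by
  have h1 : min (t / len) (T / len) = min (t' / len) (T / len) := congrArg Fin.val h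
  have h2 : t / len ≤ T / len := Nat.div_le_div_right ht.le
  have h3 : t' / len ≤ T / len := Nat.div_le_div_right ht'.le
  omega

open Classical in
/-- the elements of `U` with all places of `ω` equal to `b` -/
noncomputable def SA {V : Type} (U : Finset V) (σ : ℕ → V) (T len : ℕ) (b : Bool)
    (ω : Fin (T / len + 1) ⊕ V → Bool) : Finset V :=
  U.filter fun v => ω (Sum.inr v) = b ∧ ∀ t < T, σ t = v → ω (Sum.inl (iv T len (t / len))) = b

theorem mem_SA {V : Type} {U : Finset V} {σ : ℕ → V} {T len : ℕ} {b : Bool}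
    {ω : Fin (T / len + 1) ⊕ V → Bool} {v : V} : v ∈ SA U σ T len b ω ↔
    v ∈ U ∧ ω (Sum.inr v) = b ∧ ∀ t < T, σ t = v → ω (Sum.inl (iv T len (t / len))) = b := by
  classical
  exact mem_filter

section

variable {V : Type} [Fintype V] [DecidableEq V]

/-- many `ω` for one pair -/
theorem pair (hP : S_PRE) {U : Finset V} {σ : ℕ → V} {T k len : ℕ} {v v' : V} (hv : v ∈ U)
    (hv' : v' ∈ U) (hne : v' ≠ v) (ho : ((range T).filter fun t => σ t = v).card ≤ k)
    (ho' : ((range T).filter fun t => σ t = v').card ≤ k)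
    (hs : ¬ ∃ t < T, ∃ t' < T, σ t = v ∧ σ t' = v' ∧ t / len = t' / len)
    (R : Finset (Fin (T / len + 1) ⊕ V → Bool))
    (hR : ∀ ω, v ∈ SA U σ T len true ω ∧ v' ∈ SA U σ T len false ω → ω ∈ R) :
    2 ^ Fintype.card (Fin (T / len + 1) ⊕ V) ≤ 2 ^ (2 * k + 2) * R.card := by
  classical
  let S : Finset (Fin (T / len + 1) ⊕ V) := {Sum.inr v, Sum.inr v'} ∪
    ((((range T).filter fun t => σ t = v) ∪ ((range T).filter fun t => σ t = v')).image
      fun t => Sum.inl (iv T len (t / len)))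
  let c : Fin (T / len + 1) ⊕ V → Bool := fun x =>
    decide (x = Sum.inr v ∨ ∃ t < T, σ t = v ∧ x = Sum.inl (iv T len (t / len)))
  have hS : S.card ≤ 2 * k + 2 := by
    have h1 : S.card ≤ ({Sum.inr v, Sum.inr v'} : Finset (Fin (T / len + 1) ⊕ V)).card +
        ((((range T).filter fun t => σ t = v) ∪ ((range T).filter fun t => σ t = v')).image
          fun t => (Sum.inl (iv T len (t / len)) : Fin (T / len + 1) ⊕ V)).card :=
      card_union_le _ _
    have h2 : ({Sum.inr v, Sum.inr v'} : Finset (Fin (T / len + 1) ⊕ V)).card ≤ 2 := card_le_two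
    have h3 : ((((range T).filter fun t => σ t = v) ∪ ((range T).filter fun t => σ t = v')).image
          fun t => (Sum.inl (iv T len (t / len)) : Fin (T / len + 1) ⊕ V)).card ≤
        (((range T).filter fun t => σ t = v) ∪ ((range T).filter fun t => σ t = v')).card :=
      card_image_le
    have h4 := card_union_le ((range T).filter fun t => σ t = v)
      ((range T).filter fun t => σ t = v')
    omega
  have h1 := hP (Fin (T / len + 1) ⊕ V) S c
  have h2 : ((univ : Finset (Fin (T / len + 1) ⊕ V → Bool)).filter fun f =>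
      ∀ x ∈ S, f x = c x).card ≤ R.card := by
    refine card_le_card fun ω hω => hR ω ?_
    have hω' := (mem_filter.1 hω).2
    have hmem : ∀ t < T, (σ t = v ∨ σ t = v') →
        (Sum.inl (iv T len (t / len)) : Fin (T / len + 1) ⊕ V) ∈ S := by
      intro t ht h
      refine mem_union_right _ (mem_image.2 ⟨t, ?_, rfl⟩)
      rcases h with h | h
      · exact mem_union_left _ (mem_filter.2 ⟨mem_range.2 ht, h⟩)
      · exact mem_union_right _ (mem_filter.2 ⟨mem_range.2 ht, h⟩)
    refine ⟨mem_SA.2 ⟨hv, ?_, fun t ht h => ?_⟩, mem_SA.2 ⟨hv', ?_, fun t ht h => ?_⟩⟩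
    · rw [hω' _ (mem_union_left _ (mem_insert_self _ _))]
      exact decide_eq_true (Or.inl rfl)
    · rw [hω' _ (hmem t ht (Or.inl h))]
      exact decide_eq_true (Or.inr ⟨t, ht, h, rfl⟩)
    · rw [hω' _ (mem_union_left _ (mem_insert_of_mem (mem_singleton_self _)))]
      refine decide_eq_false ?_
      rintro (h | ⟨t, _, _, h⟩)
      · exact hne (Sum.inr.inj h)
      · cases h
    · rw [hω' _ (hmem t ht (Or.inr h))]
      refine decide_eq_false ?_
      rintro (h' | ⟨t₀, ht₀, h₀, h'⟩)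
      · cases h'
      · exact hs ⟨t₀, ht₀, t, ht, h₀, h, iv_inj ht₀ ht (Sum.inl.inj h').symm⟩
  calc 2 ^ Fintype.card (Fin (T / len + 1) ⊕ V) = _ := h1.symm
    _ ≤ R.card * 2 ^ (2 * k + 2) :=
      Nat.mul_le_mul h2 (Nat.pow_le_pow_right (by norm_num) hS)
    _ = _ := Nat.mul_comm _ _

end

end MRAM

open MRAM in
theorem t_RAM (hPRE : S_PRE) (hOCC : S_OCC) (hSHR : S_SHR) : S_RAM := by
  classical
  intro V _ _ U σ T k hk hU hT
  obtain ⟨U', hU', hocc, hcard⟩ : ∃ U' : Finset V, U' ⊆ U ∧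
      (∀ v ∈ U', ((range T).filter fun t => σ t = v).card ≤ k) ∧ U.card ≤ 2 * U'.card :=
    ⟨_, filter_subset _ _, fun v hv => (mem_filter.1 hv).2, hOCC V U σ T k hk hT⟩
  have hu : 4 * k ≤ U'.card := by omega
  obtain ⟨len, hlen⟩ : ∃ len, len = U'.card / (2 * k) := ⟨_, rfl⟩
  have hlen1 : 1 ≤ len := by
    rw [hlen, Nat.le_div_iff_mul_le (by omega)]
    omega
  have hlen2 : 2 * k * len ≤ U'.card := by
    rw [hlen]
    exact Nat.mul_div_le _ _
  have hlen3 : U'.card ≤ 4 * k * len := by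
    have h1 : U'.card < 2 * k * (len + 1) := by
      rw [hlen]
      exact Nat.lt_mul_div_succ _ (by omega)
    have h2 : 2 * k ≤ 2 * k * len := Nat.le_mul_of_pos_right _ hlen1
    nlinarith
  -- the partners
  have hN : ∀ v ∈ U', ∃ N : Finset V, N ⊆ U' ∧ U'.card ≤ 4 * N.card ∧ ∀ v' ∈ N, v' ≠ v ∧
      ¬ ∃ t < T, ∃ t' < T, σ t = v ∧ σ t' = v' ∧ t / len = t' / len := by
    intro v hv
    obtain ⟨S, hS, hSc⟩ : ∃ S : Finset V, (∀ v' ∈ U', (∃ t < T, ∃ t' < T, σ t = v ∧ σ t' = v' ∧
        t / len = t' / len) → v' ∈ S) ∧ S.card ≤ k * len :=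
      ⟨_, fun v' h1 h2 => mem_filter.2 ⟨h1, h2⟩, hSHR V U' σ T k len v hlen1 (hocc v hv)⟩
    refine ⟨(U' \ S).erase v, (erase_subset _ _).trans sdiff_subset, ?_, fun v' hv' => ?_⟩
    · have h1 : (U' \ S).card ≤ ((U' \ S).erase v).card + 1 := by
        have := pred_card_le_card_erase (s := U' \ S) (a := v)
        omega
      have h2 := le_card_sdiff S U'
      have h3 : 2 * (k * len) ≤ U'.card := by
        rw [← mul_assoc]
        exact hlen2
      omega
    · have h1 := mem_erase.1 hv'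
      have h2 := mem_sdiff.1 h1.2
      exact ⟨h1.1, fun h => h2.2 (hS v' h2.1 h)⟩
  choose! N hN1 hN2 hN3 using hN
  -- the choice of ω
  have key : ∃ ω : Fin (T / len + 1) ⊕ V → Bool, U'.card ^ 2 ≤
      2 ^ (2 * k + 4) * ((SA U' σ T len true ω).card * (SA U' σ T len false ω).card) := by
    by_contra hcon
    push Not at hcon
    have h1 : ∑ ω : Fin (T / len + 1) ⊕ V → Bool,
        2 ^ (2 * k + 4) * ((SA U' σ T len true ω).card * (SA U' σ T len false ω).card) <
        ∑ _ω : Fin (T / len + 1) ⊕ V → Bool, U'.card ^ 2 :=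
      sum_lt_sum_of_nonempty univ_nonempty fun ω _ => hcon ω
    have h2 : ∀ ω : Fin (T / len + 1) ⊕ V → Bool,
        ((U'.sigma N).filter fun p => p.1 ∈ SA U' σ T len true ω ∧
          p.2 ∈ SA U' σ T len false ω).card ≤
        (SA U' σ T len true ω).card * (SA U' σ T len false ω).card := by
      intro ω
      rw [← card_product]
      refine card_le_card_of_injOn (fun p => (p.1, p.2)) (fun p hp => ?_) ?_
      · have := (mem_filter.1 hp).2
        exact mem_product.2 this
      · rintro ⟨a, b⟩ _ ⟨a', b'⟩ _ h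
        simp only [Prod.mk.injEq] at h
        obtain ⟨rfl, rfl⟩ := h
        rfl
    have h3 : ∑ ω : Fin (T / len + 1) ⊕ V → Bool,
        ((U'.sigma N).filter fun p => p.1 ∈ SA U' σ T len true ω ∧
          p.2 ∈ SA U' σ T len false ω).card =
        ∑ p ∈ U'.sigma N, ((univ : Finset (Fin (T / len + 1) ⊕ V → Bool)).filter fun ω =>
          p.1 ∈ SA U' σ T len true ω ∧ p.2 ∈ SA U' σ T len false ω).card := by
      simp only [card_filter]
      exact sum_comm
    have h4 : (U'.sigma N).card * 2 ^ Fintype.card (Fin (T / len + 1) ⊕ V) ≤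
        2 ^ (2 * k + 2) * ∑ p ∈ U'.sigma N,
          ((univ : Finset (Fin (T / len + 1) ⊕ V → Bool)).filter fun ω =>
          p.1 ∈ SA U' σ T len true ω ∧ p.2 ∈ SA U' σ T len false ω).card := by
      rw [mul_sum, ← smul_eq_mul, ← sum_const]
      refine sum_le_sum fun p hp => ?_
      have hp' := mem_sigma.1 hp
      have h5 := hN3 p.1 hp'.1 p.2 hp'.2
      exact pair hPRE hp'.1 (hN1 p.1 hp'.1 hp'.2) h5.1 (hocc _ hp'.1)
        (hocc _ (hN1 p.1 hp'.1 hp'.2)) h5.2 _ fun ω hω => mem_filter.2 ⟨mem_univ _, hω⟩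
    have h5 : U'.card ^ 2 ≤ 4 * (U'.sigma N).card := by
      rw [card_sigma, mul_sum, sq]
      calc U'.card * U'.card = ∑ _v ∈ U', U'.card := by rw [sum_const, smul_eq_mul]
        _ ≤ _ := sum_le_sum fun v hv => hN2 v hv
    have h6 : (Fintype.card (Fin (T / len + 1) ⊕ V → Bool)) =
        2 ^ Fintype.card (Fin (T / len + 1) ⊕ V) := by
      rw [Fintype.card_fun, Fintype.card_bool]
    rw [← mul_sum, sum_const, smul_eq_mul, card_univ, h6] at h1
    have h7 := sum_le_sum (s := (univ : Finset (Fin (T / len + 1) ⊕ V → Bool))) fun ω _ => h2 ω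
    rw [h3] at h7
    have h8 : 2 ^ Fintype.card (Fin (T / len + 1) ⊕ V) * U'.card ^ 2 ≤
        2 ^ (2 * k + 4) * ∑ ω : Fin (T / len + 1) ⊕ V → Bool,
          ((SA U' σ T len true ω).card * (SA U' σ T len false ω).card) := by
      calc 2 ^ Fintype.card (Fin (T / len + 1) ⊕ V) * U'.card ^ 2
          ≤ 2 ^ Fintype.card (Fin (T / len + 1) ⊕ V) * (4 * (U'.sigma N).card) :=
            Nat.mul_le_mul_left _ h5
        _ = 4 * ((U'.sigma N).card * 2 ^ Fintype.card (Fin (T / len + 1) ⊕ V)) := by ring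
        _ ≤ 4 * (2 ^ (2 * k + 2) * _) := Nat.mul_le_mul_left _ h4
        _ ≤ 4 * (2 ^ (2 * k + 2) * _) := Nat.mul_le_mul_left _ (Nat.mul_le_mul_left _ h7)
        _ = _ := by
          rw [← mul_assoc]
          congr 1
          rw [show 2 * k + 4 = (2 * k + 2) + 2 by ring, pow_add]
          ring
    omega
  obtain ⟨ω, hω⟩ := key
  have hA : (SA U' σ T len true ω).card ≤ U'.card := card_le_card fun v hv => (mem_SA.1 hv).1
  have hB : (SA U' σ T len false ω).card ≤ U'.card := card_le_card fun v hv => (mem_SA.1 hv).1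
  have hpos : 0 < U'.card := by omega
  have hA2 : U'.card ≤ 2 ^ (2 * k + 4) * (SA U' σ T len true ω).card := by
    have h1 : U'.card * U'.card ≤ 2 ^ (2 * k + 4) * (SA U' σ T len true ω).card * U'.card := by
      calc U'.card * U'.card = U'.card ^ 2 := (sq _).symm
        _ ≤ _ := hω
        _ ≤ 2 ^ (2 * k + 4) * ((SA U' σ T len true ω).card * U'.card) :=
          Nat.mul_le_mul_left _ (Nat.mul_le_mul_left _ hB)
        _ = _ := (mul_assoc _ _ _).symm
    exact Nat.le_of_mul_le_mul_right h1 hpos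
  have hB2 : U'.card ≤ 2 ^ (2 * k + 4) * (SA U' σ T len false ω).card := by
    have h1 : U'.card * U'.card ≤ 2 ^ (2 * k + 4) * (SA U' σ T len false ω).card * U'.card := by
      calc U'.card * U'.card = U'.card ^ 2 := (sq _).symm
        _ ≤ _ := hω
        _ ≤ 2 ^ (2 * k + 4) * (U'.card * (SA U' σ T len false ω).card) :=
          Nat.mul_le_mul_left _ (Nat.mul_le_mul_right _ hA)
        _ = _ := by ring
    exact Nat.le_of_mul_le_mul_right h1 hpos
  have hp : 2 ^ (2 * k + 5) = 2 * 2 ^ (2 * k + 4) := by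
    rw [show 2 * k + 5 = (2 * k + 4) + 1 by ring, pow_succ]
    ring
  refine ⟨T / len + 1, len, fun j => ω (Sum.inl (iv T len j)), SA U' σ T len true ω,
    SA U' σ T len false ω, fun v hv => hU' (mem_SA.1 hv).1, fun v hv => hU' (mem_SA.1 hv).1,
    ?_, ?_, ?_, ?_, ?_, fun t ht => ⟨fun h => (mem_SA.1 h).2.2 t ht rfl,
      fun h => (mem_SA.1 h).2.2 t ht rfl⟩⟩
  · rw [disjoint_left]
    intro v h1 h2
    have h3 := (mem_SA.1 h1).2.1
    rw [(mem_SA.1 h2).2.1] at h3
    exact Bool.false_ne_true h3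
  · have h1 := Nat.lt_mul_div_succ T (show 0 < len by omega)
    rw [Nat.mul_comm] at h1
    exact h1.le
  · have h1 : T ≤ (4 * k ^ 2) * len := by
      have h2 : 2 * T ≤ k * (2 * U'.card) := hT.trans (Nat.mul_le_mul_left _ hcard)
      have h3 : k * U'.card ≤ k * (4 * k * len) := Nat.mul_le_mul_left _ hlen3
      have h4 : k * (4 * k * len) = (4 * k ^ 2) * len := by ring
      have h5 : k * (2 * U'.card) = 2 * (k * U'.card) := by ring
      omega
    have h2 : T / len ≤ 4 * k ^ 2 := Nat.div_le_of_le_mul (by rw [Nat.mul_comm]; exact h1)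
    omega
  · rw [hp, mul_assoc]
    omega
  · rw [hp, mul_assoc]
    omega

end Pool.Agent.DAO
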