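import Pool.Agent.DAO.St

set_option autoImplicit false

namespace Pool.Agent.DAO

open Finset Pool.Agent.OB Pool.Agent.DGO

namespace MRDG

section

variable {P Q : Type} (D L : ℕ) (f : ℕ → P → Q → Bool) (own : ℕ → ℕ → Bool)
  (β : ℕ → ℕ → P → Q → Bool) (pi pj : ℕ → ℕ)

/-- The bits of the premises. -/
def gam (k e : ℕ) (p : P) (q : Q) : Bool :=
  if e < D then β (pi k) e p q else β (pj k) (e - D) p q

/-- The rectangles. -/
def R (k h u : ℕ) (p : P) (q : Q) : Prop :=
  u ≠ 0 ∧ f k p q = false ∧ (∀ e < D, β k e p q = h.testBit e) ∧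
    ∀ e < Nat.log 2 u, gam D β pi pj k e p q = u.testBit (Nat.log 2 u - 1 - e)

variable {D L f own β pi pj}

theorem bits (h1 : ∀ k ≤ L, ∀ j < D, ∀ p q p' q', (∀ i < j, β k i p q = β k i p' q') →
    (own k j = true → p = p') → (own k j = false → q = q') → β k j p q = β k j p' q')
    {K E : ℕ} (hK : K ≤ L) (hE : E ≤ D) {c : ℕ → Bool} {p p' : P} {q q' : Q}
    (ha : ∀ e < E, β K e p q = c e) (hb : ∀ e < E, β K e p' q' = c e) :
    ∀ e < E, β K e p q' = c e := by
  intro e
  induction e using Nat.strong_induction_on with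
  | _ e ih =>
    intro he
    cases ho : own K e with
    | true =>
      rw [← ha e he]
      refine h1 K hK e (lt_of_lt_of_le he hE) p q' p q (fun i hi => ?_) (fun _ => rfl)
        (fun h => ?_)
      · rw [ih i hi (hi.trans he), ha i (hi.trans he)]
      · rw [ho] at h
        exact absurd h (by simp)
    | false =>
      rw [← hb e he]
      refine h1 K hK e (lt_of_lt_of_le he hE) p q' p' q' (fun i hi => ?_) (fun h => ?_)
        (fun _ => rfl)
      · rw [ih i hi (hi.trans he), hb i (hi.trans he)]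
      · rw [ho] at h
        exact absurd h (by simp)

theorem rect (h1 : ∀ k ≤ L, ∀ j < D, ∀ p q p' q', (∀ i < j, β k i p q = β k i p' q') →
    (own k j = true → p = p') → (own k j = false → q = q') → β k j p q = β k j p' q')
    (h2 : ∀ k ≤ L, ∀ p q p' q', (∀ i < D, β k i p q = β k i p' q') → f k p q = f k p' q')
    (hpi : ∀ k ≤ L, pi k ≤ L) (hpj : ∀ k ≤ L, pj k ≤ L)
    {k h u : ℕ} (hk : k ≤ L) (hu : u < 2 ^ (2 * D + 1)) {p p' : P} {q q' : Q}
    (ha : R D f β pi pj k h u p q) (hb : R D f β pi pj k h u p' q') :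
    R D f β pi pj k h u p q' := by
  obtain ⟨a1, a2, a3, a4⟩ := ha
  obtain ⟨b1, b2, b3, b4⟩ := hb
  have hc := bits h1 hk le_rfl a3 b3
  have hlog : Nat.log 2 u ≤ 2 * D := by
    have := Nat.log_lt_of_lt_pow a1 hu
    omega
  refine ⟨a1, ?_, hc, ?_⟩
  · rw [← a2]
    exact h2 k hk _ _ _ _ fun i hi => by rw [hc i hi, a3 i hi]
  · intro e he
    unfold gam
    by_cases heD : e < D
    · rw [if_pos heD]
      refine bits h1 (hpi k hk) (E := min (Nat.log 2 u) D) (min_le_right _ _)
        (c := fun e => u.testBit (Nat.log 2 u - 1 - e)) (p := p) (p' := p') (q := q) (q' := q')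
        (fun e' he' => ?_) (fun e' he' => ?_) e (lt_min he heD)
      · have := a4 e' (lt_of_lt_of_le he' (min_le_left _ _))
        unfold gam at this
        rwa [if_pos (lt_of_lt_of_le he' (min_le_right _ _))] at this
      · have := b4 e' (lt_of_lt_of_le he' (min_le_left _ _))
        unfold gam at this
        rwa [if_pos (lt_of_lt_of_le he' (min_le_right _ _))] at this
    · rw [if_neg heD]
      have key := bits h1 (hpj k hk) (E := Nat.log 2 u - D) (by omega)
        (c := fun e => u.testBit (Nat.log 2 u - 1 - (e + D))) (p := p) (p' := p') (q := q)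
        (q' := q')
        (fun e' he' => ?_) (fun e' he' => ?_) (e - D) (by omega)
      · rw [key]
        have : e - D + D = e := by omega
        simp only [this]
      · have := a4 (e' + D) (by omega)
        unfold gam at this
        rwa [if_neg (by omega), Nat.add_sub_cancel] at this
      · have := b4 (e' + D) (by omega)
        unfold gam at this
        rwa [if_neg (by omega), Nat.add_sub_cancel] at this

theorem log_double {u b : ℕ} (hu : u ≠ 0) (hb : b < 2) : Nat.log 2 (2 * u + b) = Nat.log 2 u + 1 := by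
  rw [Nat.log_eq_iff (Or.inl (by omega))]
  have h1 := Nat.pow_log_le_self 2 hu
  have h2 := Nat.lt_pow_succ_log_self (b := 2) (by norm_num) u
  constructor
  · rw [pow_succ]; omega
  · rw [pow_succ] at h2 ⊢
    rw [pow_succ]
    omega

theorem testBit_double {u b e : ℕ} (hb : b < 2) : (2 * u + b).testBit (e + 1) = u.testBit e := by
  rw [Nat.testBit_succ]
  congr 1
  omega

theorem step_c {k h u : ℕ} (hu : u ≠ 0) {p : P} {q : Q} (ha : R D f β pi pj k h u p q) :
    R D f β pi pj k h (2 * u) p q ∨ R D f β pi pj k h (2 * u + 1) p q := by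
  obtain ⟨a1, a2, a3, a4⟩ := ha
  have key : ∀ b : ℕ, b < 2 → gam D β pi pj k (Nat.log 2 u) p q = (2 * u + b).testBit 0 →
      R D f β pi pj k h (2 * u + b) p q := by
    intro b hb hbit
    refine ⟨by omega, a2, a3, ?_⟩
    rw [log_double hu hb]
    intro e he
    rcases Nat.lt_succ_iff_lt_or_eq.1 he with he | rfl
    · rw [a4 e he]
      have : Nat.log 2 u + 1 - 1 - e = (Nat.log 2 u - 1 - e) + 1 := by omega
      rw [this, testBit_double hb]
    · rw [hbit]
      congr 1
      omega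
  cases hg : gam D β pi pj k (Nat.log 2 u) p q with
  | false =>
    left
    have := key 0 (by norm_num) (by rw [hg]; simp [Nat.testBit_zero])
    simpa using this
  | true =>
    right
    exact key 1 (by norm_num) (by rw [hg]; simp [Nat.testBit_zero, Nat.add_mod])

/-- The number of a rectangle. -/
def num (D k h u : ℕ) : ℕ := (k * 2 ^ D + h) * 2 ^ (2 * D + 1) + (2 ^ (2 * D + 1) - 1 - u)

theorem num_lt {k h k' h' u u' : ℕ} (hk : k < k') (hh : h < 2 ^ D) :
    num D k h u < num D k' h' u' := by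
  unfold num
  have h1 : k * 2 ^ D + h + 1 ≤ k' * 2 ^ D + h' := by
    have : (k + 1) * 2 ^ D ≤ k' * 2 ^ D := Nat.mul_le_mul_right _ hk
    rw [Nat.add_mul, Nat.one_mul] at this
    omega
  have h2 := Nat.mul_le_mul_right (2 ^ (2 * D + 1)) h1
  rw [Nat.add_mul, Nat.one_mul] at h2
  have : 0 < 2 ^ (2 * D + 1) := by positivity
  omega

theorem num_lt2 {k h u u' : ℕ} (hu : u < u') (hu' : u' < 2 ^ (2 * D + 1)) :
    num D k h u' < num D k h u := by
  unfold num
  omega

theorem num_dec (v : ℕ) : num D (v / 2 ^ (2 * D + 1) / 2 ^ D) (v / 2 ^ (2 * D + 1) % 2 ^ D)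
    (2 ^ (2 * D + 1) - 1 - v % 2 ^ (2 * D + 1)) = v := by
  unfold num
  rw [Nat.div_add_mod']
  have h1 : v % 2 ^ (2 * D + 1) < 2 ^ (2 * D + 1) := Nat.mod_lt _ (by positivity)
  have h2 : 2 ^ (2 * D + 1) - 1 - (2 ^ (2 * D + 1) - 1 - v % 2 ^ (2 * D + 1)) =
      v % 2 ^ (2 * D + 1) := by omega
  rw [h2, Nat.div_add_mod']

theorem dec_num {k h u : ℕ} (hh : h < 2 ^ D) (hu : u < 2 ^ (2 * D + 1)) :
    num D k h u / 2 ^ (2 * D + 1) / 2 ^ D = k ∧ num D k h u / 2 ^ (2 * D + 1) % 2 ^ D = h ∧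
      2 ^ (2 * D + 1) - 1 - num D k h u % 2 ^ (2 * D + 1) = u := by
  have hB : 0 < 2 ^ (2 * D + 1) := by positivity
  have hD : 0 < 2 ^ D := by positivity
  have h1 : num D k h u / 2 ^ (2 * D + 1) = k * 2 ^ D + h := by
    unfold num
    rw [Nat.mul_comm, Nat.mul_add_div hB, Nat.div_eq_of_lt (by omega), Nat.add_zero]
  have h2 : num D k h u % 2 ^ (2 * D + 1) = 2 ^ (2 * D + 1) - 1 - u := by
    unfold num
    rw [Nat.mul_comm, Nat.mul_add_mod, Nat.mod_eq_of_lt (by omega)]
  refine ⟨?_, ?_, ?_⟩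
  · rw [h1, Nat.mul_comm, Nat.mul_add_div hD, Nat.div_eq_of_lt hh, Nat.add_zero]
  · rw [h1, Nat.mul_comm, Nat.mul_add_mod, Nat.mod_eq_of_lt hh]
  · rw [h2]
    omega

end

end MRDG

open MRDG

theorem t_RDG (hBIT : S_BIT) : S_RDG := by
  classical
  intro I _ _ t D L G f hG hf ⟨k₀, hk₀, hf₀⟩
  -- the lines with the extra line
  let f' : ℕ → Ptr I t → Arr I t → Bool := fun k => if k < L then f k else fun _ _ => false
  have hf'1 : ∀ k < L, f' k = f k := fun k hk => if_pos hk
  have hf'2 : ∀ p V, f' L p V = false := fun p V => by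
    show (if L < L then f L else fun _ _ => false) p V = false
    rw [if_neg (lt_irrefl L)]
  have hBP : ∀ k, ∃ (own : ℕ → Bool) (β : ℕ → Ptr I t → Arr I t → Bool), k ≤ L →
      (∀ j < D, ∀ p q p' q', (∀ i < j, β i p q = β i p' q') → (own j = true → p = p') →
      (own j = false → q = q') → β j p q = β j p' q') ∧
      (∀ p q p' q', (∀ i < D, β i p q = β i p' q') → f' k p q = f' k p' q') ∧
      (k = L → ∀ i p q, β i p q = false) := by
    intro k
    by_cases hk : k < L
    · obtain ⟨own, β, h1, h2⟩ := (hf k hk).1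
      refine ⟨own, β, fun _ => ⟨h1, ?_, fun h => absurd h (by omega)⟩⟩
      rw [hf'1 k hk]
      exact h2
    · refine ⟨fun _ => true, fun _ _ _ => false, fun hkL => ⟨?_, ?_, ?_⟩⟩
      · intros; rfl
      · intro p q p' q' _
        obtain rfl : k = L := by omega
        rw [hf'2, hf'2]
      · intros; rfl
  choose own β hβ using hBP
  have hprem : ∀ k, ∃ i j, k ≤ L → i ≤ L ∧ j ≤ L ∧
      ((∃ C ∈ G, ∀ p V, f' k p V = false → ¬ Sat (fun i => V i (p i)) C) ∨
        (i < k ∧ j < k ∧ ∀ p V, f' k p V = false → f' i p V = false ∨ f' j p V = false)) := by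
    intro k
    by_cases hk : k < L
    · rcases (hf k hk).2 with h | ⟨i, hi, j, hj, h⟩
      · refine ⟨k, k, fun _ => ⟨hk.le, hk.le, Or.inl ?_⟩⟩
        rw [hf'1 k hk]
        exact h
      · refine ⟨i, j, fun _ => ⟨by omega, by omega, Or.inr ⟨hi, hj, ?_⟩⟩⟩
        rw [hf'1 k hk, hf'1 i (by omega), hf'1 j (by omega)]
        exact h
    · refine ⟨k₀, k₀, fun hkL => ⟨hk₀.le, hk₀.le, Or.inr ⟨by omega, by omega, ?_⟩⟩⟩
      intro p V _
      left
      rw [hf'1 k₀ hk₀]
      exact hf₀ p V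
  choose pi pj hp using hprem
  have h1 : ∀ k ≤ L, ∀ j < D, ∀ p q p' q', (∀ i < j, β k i p q = β k i p' q') →
      (own k j = true → p = p') → (own k j = false → q = q') → β k j p q = β k j p' q' :=
    fun k hk => (hβ k hk).1
  have h2 : ∀ k ≤ L, ∀ p q p' q', (∀ i < D, β k i p q = β k i p' q') → f' k p q = f' k p' q' :=
    fun k hk => (hβ k hk).2.1
  have hpi : ∀ k ≤ L, pi k ≤ L := fun k hk => (hp k hk).1
  have hpj : ∀ k ≤ L, pj k ≤ L := fun k hk => (hp k hk).2.1
  let F : ℕ → Ptr I t → Finset (Arr I t) := fun v p =>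
    univ.filter fun V => R D f' β pi pj (v / 2 ^ (2 * D + 1) / 2 ^ D)
      (v / 2 ^ (2 * D + 1) % 2 ^ D) (2 ^ (2 * D + 1) - 1 - v % 2 ^ (2 * D + 1)) p V
  have hF : ∀ k h u, h < 2 ^ D → u < 2 ^ (2 * D + 1) → ∀ p V,
      V ∈ F (num D k h u) p ↔ R D f' β pi pj k h u p V := by
    intro k h u hh hu p V
    obtain ⟨e1, e2, e3⟩ := dec_num (k := k) hh hu
    show V ∈ (univ.filter fun V => R D f' β pi pj (num D k h u / 2 ^ (2 * D + 1) / 2 ^ D)
      (num D k h u / 2 ^ (2 * D + 1) % 2 ^ D)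
      (2 ^ (2 * D + 1) - 1 - num D k h u % 2 ^ (2 * D + 1)) p V) ↔ _
    rw [e1, e2, e3]
    simp
  have hBpos : 0 < 2 ^ (2 * D + 1) := by positivity
  have hDpos : 0 < 2 ^ D := by positivity
  have htot : (L + 1) * 2 ^ (3 * D + 1) = (L + 1) * 2 ^ D * 2 ^ (2 * D + 1) := by
    rw [Nat.mul_assoc, ← pow_add]
    congr 2
    omega
  have hdec : ∀ v < (L + 1) * 2 ^ (3 * D + 1), ∃ k ≤ L, ∃ h < 2 ^ D, ∃ u < 2 ^ (2 * D + 1),
      v = num D k h u := by
    intro v hv
    rw [htot] at hv
    have e1 : v / 2 ^ (2 * D + 1) < (L + 1) * 2 ^ D :=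
      Nat.div_lt_of_lt_mul (hv.trans_eq (Nat.mul_comm _ _))
    have e2 : v / 2 ^ (2 * D + 1) / 2 ^ D < L + 1 :=
      Nat.div_lt_of_lt_mul (e1.trans_eq (Nat.mul_comm _ _))
    exact ⟨v / 2 ^ (2 * D + 1) / 2 ^ D, by omega, v / 2 ^ (2 * D + 1) % 2 ^ D, Nat.mod_lt _ hDpos,
      2 ^ (2 * D + 1) - 1 - v % 2 ^ (2 * D + 1), by omega, (num_dec v).symm⟩
  refine ⟨F, ?_, ?_, ?_⟩
  · -- few sets
    intro v hv
    obtain ⟨k, hk, h, hh, u, hu, rfl⟩ := hdec v hv
    refine ⟨fun _ => univ, fun _ => by simp, fun p₀ => ?_⟩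
    have hsub : ((cls (fun _ => univ) p₀).image (F (num D k h u))) ⊆
        {∅, univ.filter fun V => ∃ p, R D f' β pi pj k h u p V} := by
      intro S hS
      obtain ⟨p, -, rfl⟩ := Finset.mem_image.1 hS
      rw [Finset.mem_insert, Finset.mem_singleton]
      rcases Finset.eq_empty_or_nonempty (F (num D k h u) p) with he | ⟨V₀, hV₀⟩
      · exact Or.inl he
      · right
        ext V
        rw [hF k h u hh hu, Finset.mem_filter]
        constructor
        · exact fun hR => ⟨Finset.mem_univ _, p, hR⟩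
        · rintro ⟨-, p', hR⟩
          exact rect h1 h2 hpi hpj hk hu ((hF k h u hh hu p V₀).1 hV₀) hR
    exact (Finset.card_le_card hsub).trans (Finset.card_insert_le _ _)
  · -- the steps
    intro v hv
    obtain ⟨k, hk, h, hh, u, hu, rfl⟩ := hdec v hv
    by_cases hu0 : u = 0
    · right
      obtain ⟨C, hC⟩ := hG
      refine ⟨C, hC, fun p V hV => ?_⟩
      exact absurd hu0 ((hF k h u hh hu p V).1 hV).1
    obtain ⟨-, -, hax | ⟨hik, hjk, himp⟩⟩ := hp k hk
    · right
      obtain ⟨C, hC, hCf⟩ := hax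
      exact ⟨C, hC, fun p V hV => hCf p V ((hF k h u hh hu p V).1 hV).2.1⟩
    left
    have hlog : Nat.log 2 u ≤ 2 * D := by
      have := Nat.log_lt_of_lt_pow hu0 hu
      omega
    rcases Nat.lt_or_ge (Nat.log 2 u) (2 * D) with hlt | hge
    · -- split
      have hu2 : 2 * u + 1 < 2 ^ (2 * D + 1) := by
        have h3 := Nat.lt_pow_succ_log_self (b := 2) (by norm_num) u
        have h4 : 2 ^ (Nat.log 2 u + 1) ≤ 2 ^ (2 * D) := Nat.pow_le_pow_right (by norm_num) hlt
        have h5 : u < 2 ^ (2 * D) := lt_of_lt_of_le h3 h4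
        rw [pow_succ]
        omega
      refine ⟨num D k h (2 * u), num_lt2 (by omega) (by omega), num D k h (2 * u + 1),
        num_lt2 (by omega) hu2, fun p V hV => ?_⟩
      rw [Finset.mem_union, hF k h (2 * u) hh (by omega), hF k h (2 * u + 1) hh hu2]
      exact step_c hu0 ((hF k h u hh hu p V).1 hV)
    · have hlog2 : Nat.log 2 u = 2 * D := le_antisymm hlog hge
      obtain ⟨a, ha, hab⟩ := hBIT D fun e => u.testBit (2 * D - 1 - e)
      obtain ⟨b, hb, hbb⟩ := hBIT D fun e => u.testBit (D - 1 - e)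
      have h1B : 1 < 2 ^ (2 * D + 1) := Nat.one_lt_two_pow (by omega)
      refine ⟨num D (pi k) a 1, num_lt hik ha, num D (pj k) b 1, num_lt hjk hb, fun p V hV => ?_⟩
      rw [Finset.mem_union, hF (pi k) a 1 ha h1B, hF (pj k) b 1 hb h1B]
      obtain ⟨-, r2, r3, r4⟩ := (hF k h u hh hu p V).1 hV
      rw [hlog2] at r4
      rcases himp p V r2 with hi | hj
      · left
        refine ⟨one_ne_zero, hi, fun e he => ?_, fun e he => ?_⟩
        · rw [hab e he, ← r4 e (by omega)]
          unfold gam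
          rw [if_pos he]
        · rw [Nat.log_one_right] at he
          omega
      · right
        refine ⟨one_ne_zero, hj, fun e he => ?_, fun e he => ?_⟩
        · rw [hbb e he]
          have := r4 (e + D) (by omega)
          unfold gam at this
          rw [if_neg (by omega), Nat.add_sub_cancel] at this
          rw [this]
          congr 1
          omega
        · rw [Nat.log_one_right] at he
          omega
  · -- the start
    have h1B : 1 < 2 ^ (2 * D + 1) := Nat.one_lt_two_pow (by omega)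
    refine ⟨num D L 0 1, ?_, fun p => ?_⟩
    · rw [htot]
      unfold num
      have : (L + 1) * 2 ^ D * 2 ^ (2 * D + 1) = L * 2 ^ D * 2 ^ (2 * D + 1) +
        2 ^ D * 2 ^ (2 * D + 1) := by ring
      rw [this, Nat.add_zero]
      have : 1 * 2 ^ (2 * D + 1) ≤ 2 ^ D * 2 ^ (2 * D + 1) := Nat.mul_le_mul_right _ hDpos
      omega
    · rw [Finset.eq_univ_iff_forall]
      intro V
      rw [hF L 0 1 hDpos h1B]
      refine ⟨one_ne_zero, hf'2 p V, fun e he => ?_, fun e he => ?_⟩
      · rw [(hβ L le_rfl).2.2 rfl, Nat.zero_testBit]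
      · rw [Nat.log_one_right] at he
        omega

end Pool.Agent.DAO
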