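import Pool.Agent.DAO.St

/-!
# Project DAO: a variable shares intervals with few others
-/

set_option autoImplicit false

open Finset

namespace Pool.Agent.DAO

namespace MSHR

theorem mem_aux {V : Type} [DecidableEq V] {σ : ℕ → V} {T len : ℕ} {v v' : V} (hlen : 1 ≤ len)
    (h : ∃ t < T, ∃ t' < T, σ t = v ∧ σ t' = v' ∧ t / len = t' / len) :
    v' ∈ ((range T).filter fun t => σ t = v).biUnion fun t =>
      (Ico (len * (t / len)) (len * (t / len) + len)).image σ := by
  obtain ⟨t, ht, t', ht', h1, h2, h3⟩ := h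
  rw [Finset.mem_biUnion]
  refine ⟨t, Finset.mem_filter.2 ⟨Finset.mem_range.2 ht, h1⟩, ?_⟩
  rw [Finset.mem_image]
  refine ⟨t', ?_, h2⟩
  rw [Finset.mem_Ico, h3]
  have h4 := Nat.div_add_mod t' len
  have h5 := Nat.mod_lt t' (Nat.lt_of_lt_of_le Nat.zero_lt_one hlen)
  constructor
  · omega
  · omega

theorem card_aux {V : Type} [DecidableEq V] (σ : ℕ → V) (T k len : ℕ) (v : V)
    (h : ((range T).filter fun t => σ t = v).card ≤ k) :
    (((range T).filter fun t => σ t = v).biUnion fun t =>
      (Ico (len * (t / len)) (len * (t / len) + len)).image σ).card ≤ k * len := by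
  refine (Finset.card_biUnion_le_card_mul _ _ len fun t _ => ?_).trans
    (Nat.mul_le_mul_right len h)
  refine Finset.card_image_le.trans ?_
  rw [Nat.card_Ico]
  omega

end MSHR

theorem t_SHR : S_SHR := by
  intro V _ U σ T k len v hlen h
  refine (Finset.card_le_card ?_).trans (MSHR.card_aux σ T k len v h)
  intro v' hv'
  exact MSHR.mem_aux hlen (Finset.mem_filter.1 hv').2

end Pool.Agent.DAO
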