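import Pool.Agent.DAO.St

/-!
# Project DAO, module THR: a linear inequality as an oblivious branching program
-/

set_option autoImplicit false

namespace Pool.Agent.DAO

open Finset Pool.Agent.OB Pool.Agent.DGO

namespace MTHR

/-- the transition -/
def tr {V : Type} (s n : ℕ) (σ : ℕ → V) (a : V → ℤ) (t : ℕ) (q : Fin (2 * s + 1)) (c : Bool) :
    Fin (2 * s + 1) :=
  if t < n then
    if h : 0 ≤ (q : ℤ) + (if c = true then a (σ t) else 0) ∧
        (q : ℤ) + (if c = true then a (σ t) else 0) ≤ 2 * s then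
      ⟨((q : ℤ) + (if c = true then a (σ t) else 0)).toNat, by omega⟩
    else q
  else q

theorem run_eq {V : Type} (s n : ℕ) (σ : ℕ → V) (a : V → ℤ) (q : Fin (2 * s + 1))
    (hq : (q : ℕ) = s) (x : V → Bool) (hs : ∑ j ∈ range n, |a (σ j)| ≤ s) :
    ∀ t, t ≤ n → ((run (tr s n σ a) σ q x t : Fin (2 * s + 1)) : ℤ) =
      s + ∑ j ∈ range t, if x (σ j) = true then a (σ j) else 0 := by
  intro t
  induction t with
  | zero =>
    intro _
    show ((q : ℕ) : ℤ) = _
    rw [hq, range_zero, sum_empty, add_zero]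
  | succ t ih =>
    intro ht
    have h1 := ih (by omega)
    have h2 : |∑ j ∈ range (t + 1), if x (σ j) = true then a (σ j) else 0| ≤ s := by
      refine (abs_sum_le_sum_abs _ _).trans (le_trans ?_ hs)
      refine (sum_le_sum (g := fun j => |a (σ j)|) fun j _ => ?_).trans
        (sum_le_sum_of_subset_of_nonneg (range_subset_range.2 ht) fun j _ _ => abs_nonneg _)
      split_ifs
      · exact le_rfl
      · rw [abs_zero]
        exact abs_nonneg _
    rw [abs_le, sum_range_succ] at h2
    rw [sum_range_succ]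
    show ((tr s n σ a t (run (tr s n σ a) σ q x t) (x (σ t)) : Fin (2 * s + 1)) : ℤ) = _
    have h3 : 0 ≤ ((run (tr s n σ a) σ q x t : Fin (2 * s + 1)) : ℤ) +
        (if x (σ t) = true then a (σ t) else 0) ∧
        ((run (tr s n σ a) σ q x t : Fin (2 * s + 1)) : ℤ) +
        (if x (σ t) = true then a (σ t) else 0) ≤ 2 * s := by
      rw [h1]
      constructor <;> linarith [h2.1, h2.2]
    unfold tr at h3 ⊢
    rw [if_pos (by omega : t < n), dif_pos h3]
    show ((Int.toNat _ : ℕ) : ℤ) = _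
    rw [Int.toNat_of_nonneg h3.1]
    unfold tr at h1
    rw [h1, add_assoc]

theorem run_const {V : Type} (s n : ℕ) (σ : ℕ → V) (a : V → ℤ) (q : Fin (2 * s + 1))
    (x : V → Bool) (k : ℕ) :
    run (tr s n σ a) σ q x (n + k) = run (tr s n σ a) σ q x n := by
  induction k with
  | zero => rfl
  | succ k ih =>
    rw [← ih]
    show tr s n σ a (n + k) (run (tr s n σ a) σ q x (n + k)) (x (σ (n + k))) = _
    generalize run (tr s n σ a) σ q x (n + k) = r
    unfold tr
    rw [if_neg (by omega)]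

theorem sum_all {V : Type} [Fintype V] (ρ : V ≃ Fin (Fintype.card V)) (σ : ℕ → V)
    (hσ : ∀ j : Fin (Fintype.card V), σ j = ρ.symm j) (g : V → ℤ) :
    ∑ j ∈ range (Fintype.card V), g (σ j) = ∑ v, g v := by
  rw [sum_range, ← Equiv.sum_comp ρ.symm g]
  exact sum_congr rfl fun j _ => by rw [hσ]

end MTHR

open MTHR in
theorem t_THR : S_THR := by
  intro V _ s T ρ f σ hf hT hσ
  obtain ⟨a, b, hab, hf⟩ := hf
  obtain ⟨k, rfl⟩ := Nat.exists_eq_add_of_le hT
  refine ⟨tr s (Fintype.card V) σ a, ⟨s, by omega⟩, fun q => decide (b ≤ (q : ℤ) - s), fun x => ?_⟩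
  rw [run_const]
  have h1 := run_eq s (Fintype.card V) σ a ⟨s, by omega⟩ rfl x
    (by rw [sum_all ρ σ hσ fun v => |a v|]; exact hab) (Fintype.card V) le_rfl
  rw [sum_all ρ σ hσ fun v => if x v = true then a v else 0] at h1
  rw [Bool.eq_iff_iff, hf x, decide_eq_true_iff, h1]
  constructor <;> intro h <;> linarith

end Pool.Agent.DAO
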