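import Pool.Agent.DAO.Main0
import Pool.Agent.DAO.IDX
import Pool.Agent.DAO.ADR
import Pool.Agent.DAO.PRE
import Pool.Agent.DAO.OCC
import Pool.Agent.DAO.SHR
import Pool.Agent.DAO.RAM
import Pool.Agent.DAO.OBX
import Pool.Agent.DAO.BIT
import Pool.Agent.DAO.RDG
import Pool.Agent.DAO.EMB
import Pool.Agent.DAO.AXI
import Pool.Agent.DAO.PLC
import Pool.Agent.DAO.OBD
import Pool.Agent.DAO.THR
import Pool.Agent.DAO.OBM
import Pool.Agent.DAO.NUA
import Pool.Agent.DAO.NUB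
import Pool.Agent.DAO.NUC
import Pool.Agent.DAO.NUD
import Pool.Agent.DGO.Core
import Pool.Agent.DGO.CLC
import Pool.Agent.DGO.HOF
import Pool.Agent.DGO.MOM
import Pool.Agent.DGO.SM
import Pool.Agent.DGO.CHD
import Pool.Agent.DGO.SWP
import Pool.Agent.DGO.CHP
import Pool.Agent.DGO.GOO
import Pool.Agent.DGO.PST
import Pool.Agent.DGO.FR
import Pool.Agent.DGO.BAD
import Pool.Agent.DGO.ALL
import Pool.Agent.DGO.EXT
import Pool.Agent.DGO.WLK
import Pool.Agent.DGO.STA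
import Pool.Agent.DGO.PHP
import Pool.Agent.DGO.OST

/-!
# Project DAO: the theorem
-/

set_option autoImplicit false

namespace Pool.Agent.DAO

open Pool.Agent.DGO

theorem core : S_CORE :=
  t_CORE (t_SM t_CLC t_HOF t_MOM) (t_CHP t_CHD t_SWP) (t_GOO t_CHD) (t_PST t_CLC)
    (t_WLK t_CHD t_FR t_BAD (t_EXT t_CHD)) (t_STA t_CHD t_BAD t_ALL (t_EXT t_CHD))

theorem ref : Pool.Agent.DAO.S_REF :=
  Pool.Agent.DAO.t_REF (t_RAM t_PRE t_OCC t_SHR) t_OBX (t_RDG t_BIT) Pool.Agent.DAO.t_EMB t_AXI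
    t_PLC core

theorem main : Pool.Agent.DAO.S_MAIN :=
  Pool.Agent.DAO.t_MAIN (t_CORE1 ref t_PHP t_NUA t_NUB t_NUC) t_PHP t_IDX t_ADR t_NUA t_NUB t_NUD
    (t_OBD t_OST) t_THR t_OBM

end Pool.Agent.DAO
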