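import Pool.Agent.DAO.Ref
import Pool.Agent.DGO.St2

/-!
# Project DAO: the assembly
-/

set_option autoImplicit false

namespace Pool.Agent.DAO

open Finset Pool.Agent.OB Pool.Agent.DGO

theorem php_eq (m : ℕ) : php m = EPHP m := rfl

theorem card_FV (m : ℕ) : Fintype.card (FV m) = 2 ^ (3 * tt m) +
    3 * (((m + 1) * (2 * m + 1)) * (2 ^ tt m + 1)) * (3 * tt m) := by
  simp only [FV, Fintype.card_sum, Fintype.card_prod, Fintype.card_fin, Fintype.card_fun,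
    Fintype.card_bool]
  ring

theorem ofNat_val {l : ℕ} (k : Fin (l + 1)) : Fin.ofNat (l + 1) (k : ℕ) = k :=
  Fin.ext (Nat.mod_eq_of_lt k.2)

theorem le_two (s : ℕ) : s ≤ 2 * s + 1 := by omega

theorem half_le {N b : ℝ} (_ : 0 ≤ N * b) : 1 / 128 * N * b ≤ 1 / 64 * N * b := by nlinarith

theorem sq_le (m : ℕ) : m ^ 2 ≤ (m + 1) * (2 * m + 1) := by nlinarith

theorem three_le (m : ℕ) (h : 10 ≤ m) : 3 ≤ (m + 1) * (2 * m + 1) := by nlinarith

theorem div3 (m : ℕ) (h : 10 ≤ m) (c : ℕ) (hc : c ≤ 3) : c + m / 3 ≤ m := by omega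

/-- The lower bound for oblivious branching programs. -/
def S_CORE1 : Prop := ∃ m₀ : ℕ, ∀ m ≥ m₀, ∀ N : ℕ, N = Fintype.card (FV m) →
  ∀ (σ : ℕ → FV m) (T w L : ℕ), (T : ℝ) ≤ 1 / 64 * N * Real.logb 2 N →
    Ref (form m) (Obl σ T w) L → (2 : ℝ) ^ ((N : ℝ) ^ (1 / 2000 : ℝ)) ≤ (max w L : ℕ)

theorem t_CORE1 (hREF : S_REF) (hPHP : Pool.Agent.DGO.S_PHP) (hNUA : S_NUA) (hNUB : S_NUB)
    (hNUC : S_NUC) : S_CORE1 := by
  obtain ⟨m₁, hm₁⟩ := hNUC
  obtain ⟨P, hP⟩ : ∃ P : ℕ, P = 2 ^ 128 := ⟨_, rfl⟩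
  refine ⟨max m₁ (max P 10), fun m hm N hN σ T w L hT href => ?_⟩
  by_contra hcon
  rw [not_le] at hcon
  have hm1 : m₁ ≤ m := (le_max_left _ _).trans hm
  have hm2 : P ≤ m := ((le_max_left _ _).trans (le_max_right _ _)).trans hm
  have hm10 : 10 ≤ m := ((le_max_right _ _).trans (le_max_right _ _)).trans hm
  set n := (m + 1) * (2 * m + 1) with hn
  set a := Nat.clog 2 (512 * n ^ 5) with ha
  have htt : tt m = 4 * a := rfl
  have hN' : N = 2 ^ (3 * (4 * a)) + 3 * (n * (2 ^ (4 * a) + 1)) * (3 * (4 * a)) := by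
    rw [hN, card_FV, htt]
  obtain ⟨h1, h2, h3, h4, h5, h6, h7, h8, h9, h10, h11, h12⟩ :=
    hNUA m n a (4 * a) N hm10 hn ha rfl hN'
  obtain ⟨hb, -⟩ := hNUB a (4 * a) N h7 rfl h4 (by rw [← hP]; exact hm2.trans h1)
  have hmn : m ^ 2 ≤ n := sq_le m
  obtain ⟨hc1, hc2⟩ := hm₁ m hm1 n a N w L hmn h7 h12 h1 h2 hcon
  obtain ⟨hu, hw3, hcnt, hcard, H, hH⟩ := hPHP m (le_trans (by norm_num) hm10)
  have hcI : Fintype.card (PV m) = n := hcard
  have hne : (EPHP m).Nonempty := by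
    refine ⟨{((0, Sum.inr 0), false)}, ?_⟩
    simp only [EPHP, Finset.mem_union]
    exact Or.inl (Or.inl (Or.inl (Finset.mem_image.2 ⟨0, Finset.mem_univ _, rfl⟩)))
  have hn3 : 3 ≤ n := three_le m hm10
  have key := hREF (PV m) (3 * (4 * a)) a T w L a (n * (4 * a) + 3 * n + 1 + m) (m / 3) m m
    (EPHP m) H σ h7 h8 (hb T hT) (by rw [hcI]; exact h9) (by rw [hcI]; exact hn3)
    (by rw [hcI]; exact h10) (by rw [hcI]; exact h11) (by rw [hcI]) hc1 hne hH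
    (Nat.mul_div_le m 3) (fun C hC => div3 m hm10 _ (hw3 C hC)) href
  rw [hcI] at key
  exact absurd (hc2.trans_le key) (lt_irrefl _)

theorem t_MAIN (hCORE1 : S_CORE1) (hPHP : Pool.Agent.DGO.S_PHP) (hIDX : S_IDX) (hADR : S_ADR)
    (hNUA : S_NUA) (hNUB : S_NUB) (hNUD : S_NUD) (hOBD : S_OBD) (hTHR : S_THR) (hOBM : S_OBM) :
    S_MAIN := by
  classical
  obtain ⟨m₁, hm₁⟩ := hCORE1
  obtain ⟨P, hP⟩ : ∃ P : ℕ, P = 2 ^ 128 := ⟨_, rfl⟩
  obtain ⟨R, hR⟩ : ∃ R : ℕ, R = 2 ^ 4000 := ⟨_, rfl⟩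
  refine ⟨1 / 4000, 1 / 128, 500, max m₁ (max R (max P 10)), by norm_num, by norm_num,
    fun m hm N hN => ?_⟩
  have hm1 : m₁ ≤ m := (le_max_left _ _).trans hm
  have hm2 : R ≤ m := ((le_max_left _ _).trans (le_max_right _ _)).trans hm
  have hm4 : max P 10 ≤ m := ((le_max_right _ _).trans (le_max_right _ _)).trans hm
  have hm3 : P ≤ m := (le_max_left _ _).trans hm4
  have hm10 : 10 ≤ m := (le_max_right _ _).trans hm4
  set n := (m + 1) * (2 * m + 1) with hn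
  set a := Nat.clog 2 (512 * n ^ 5) with ha
  have htt : tt m = 4 * a := rfl
  have hN' : N = 2 ^ (3 * (4 * a)) + 3 * (n * (2 ^ (4 * a) + 1)) * (3 * (4 * a)) := by
    rw [hN, card_FV, htt]
  obtain ⟨h1, h2, h3, h4, h5, h6, h7, h8, h9, h10, h11, h12⟩ :=
    hNUA m n a (4 * a) N hm10 hn ha rfl hN'
  obtain ⟨-, hb⟩ := hNUB a (4 * a) N h7 rfl h4 (by rw [← hP]; exact hm3.trans h1)
  obtain ⟨hu, hw3, hcnt, hcard, -⟩ := hPHP m (le_trans (by norm_num) hm10)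
  have hcI : Fintype.card (Fin (m + 1) × (Fin m ⊕ Fin (m + 1))) = n := hcard
  obtain ⟨hi1, hi2, hi3⟩ := hIDX _ (2 ^ tt m) (php m) hw3
  obtain ⟨hd1, hd2, hd3⟩ := hADR _ (3 * tt m) (idx (2 ^ tt m) (php m)) hi2
  have hN1 : 1 ≤ N := le_trans (le_trans (by norm_num) hm10) h1
  have hNpos : (1 : ℝ) ≤ (N : ℝ) := Nat.one_le_cast.2 hN1
  have hNr : (0 : ℝ) ≤ Real.logb 2 N := Real.logb_nonneg (by norm_num) hNpos
  have hmono : (N : ℝ) ^ (1 / 4000 : ℝ) ≤ (N : ℝ) ^ (1 / 2000 : ℝ) :=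
    Real.rpow_le_rpow_of_exponent_le hNpos (by norm_num)
  have hmono2 : (2 : ℝ) ^ ((N : ℝ) ^ (1 / 4000 : ℝ)) ≤ (2 : ℝ) ^ ((N : ℝ) ^ (1 / 2000 : ℝ)) :=
    Real.rpow_le_rpow_of_exponent_le (by norm_num) hmono
  refine ⟨h1, h2, hd1 (hi1 hu), ?_, ?_, ?_, ?_⟩
  · -- the number of clauses
    rw [hcI] at hi3
    calc (form m).card ≤ (idx (2 ^ tt m) (php m)).card * 2 ^ (6 * (3 * tt m)) := hd3
      _ ≤ (2 * n + n * 2 ^ (4 * a) + 4 * (m + 1) ^ 3 * (2 ^ (4 * a) + 1) ^ 3) *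
          2 ^ (6 * (3 * (4 * a))) :=
        Nat.mul_le_mul_right _ (hi3.trans (Nat.add_le_add_left (Nat.mul_le_mul_right _ hcnt) _))
      _ ≤ N ^ 500 := h5
  · intro C hC
    obtain ⟨q1, q2⟩ := hd2 C hC
    exact ⟨q2.trans h6, q1⟩
  · intro σ T w L hT href
    refine hmono2.trans (hm₁ m hm1 N hN σ T w L (hT.trans ?_) href)
    exact half_le (mul_nonneg (Nat.cast_nonneg _) hNr)
  · intro l s L ord hl href
    by_contra hcon
    rw [not_le] at hcon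
    have hs : (s : ℝ) < (2 : ℝ) ^ ((N : ℝ) ^ (1 / 4000 : ℝ)) :=
      lt_of_le_of_lt (by exact_mod_cast le_max_left s L) hcon
    have hL : (L : ℝ) < (2 : ℝ) ^ ((N : ℝ) ^ (1 / 4000 : ℝ)) :=
      lt_of_le_of_lt (by exact_mod_cast le_max_right s L) hcon
    have hs2 := hNUD N s (by rw [← hR]; exact hm2.trans h1) hs
    have hVpos : 0 < Fintype.card (FV m) := by rw [← hN]; exact hN1
    let ord' : Fin (l + 1) → (FV m ≃ Fin (Fintype.card (FV m))) :=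
      Fin.cons (Fintype.equivFin (FV m)) ord
    let σ : ℕ → FV m := fun τ =>
      (ord' (Fin.ofNat (l + 1) (τ / Fintype.card (FV m)))).symm
        ⟨τ % Fintype.card (FV m), Nat.mod_lt _ hVpos⟩
    have hσ : ∀ (k : Fin (l + 1)) (j : Fin (Fintype.card (FV m))),
        σ (k * Fintype.card (FV m) + j) = (ord' k).symm j := by
      intro k j
      have e1 : ((k : ℕ) * Fintype.card (FV m) + j) / Fintype.card (FV m) = k := by
        rw [Nat.mul_comm, Nat.mul_add_div hVpos, Nat.div_eq_of_lt j.2, Nat.add_zero]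
      have e2 : ((k : ℕ) * Fintype.card (FV m) + j) % Fintype.card (FV m) = j := by
        rw [Nat.mul_comm, Nat.mul_add_mod, Nat.mod_eq_of_lt j.2]
      have e3 : Fin.ofNat (l + 1) (((k : ℕ) * Fintype.card (FV m) + j) / Fintype.card (FV m)) = k := by
        rw [e1]
        exact ofNat_val k
      have e4 : (⟨((k : ℕ) * Fintype.card (FV m) + j) % Fintype.card (FV m),
          Nat.mod_lt _ hVpos⟩ : Fin (Fintype.card (FV m))) = j := Fin.ext e2
      show (ord' (Fin.ofNat (l + 1) (((k : ℕ) * Fintype.card (FV m) + j) /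
        Fintype.card (FV m)))).symm _ = _
      rw [e3, e4]
    have href' : Ref (form m) (Obl σ ((l + 1) * Fintype.card (FV m)) (2 * s + 1)) L := by
      obtain ⟨f, hf, hlast⟩ := href
      refine ⟨f, fun k hk => ⟨?_, (hf k hk).2⟩, hlast⟩
      rcases (hf k hk).1 with ⟨i, s', hs', hob⟩ | hin
      · refine hOBM _ σ _ s (2 * s + 1) (f k) (le_two s) ?_
        exact hOBD _ (l + 1) s s' ord' i.succ (f k) σ hs' (by rw [show ord' i.succ = ord i from Fin.cons_succ _ _ _]; exact hob) hσ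
      · refine hTHR _ s _ (ord' 0) (f k) σ hin (Nat.le_mul_of_pos_left _ (Nat.succ_pos l)) fun j => ?_
        have h0 := hσ 0 j
        rw [show ((0 : Fin (l + 1)) : ℕ) * Fintype.card (FV m) + (j : ℕ) = (j : ℕ) by
          rw [Fin.val_zero, Nat.zero_mul, Nat.zero_add]] at h0
        exact h0
    have hT := hb l hl
    have key := hm₁ m hm1 N hN σ ((l + 1) * Fintype.card (FV m)) (2 * s + 1) L
      (by rw [← hN]; exact hT) href'
    have hmax : ((max (2 * s + 1) L : ℕ) : ℝ) < (2 : ℝ) ^ ((N : ℝ) ^ (1 / 2000 : ℝ)) := by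
      rw [Nat.cast_max]
      exact max_lt hs2 (hL.trans_le hmono2)
    exact absurd (key.trans_lt hmax) (lt_irrefl _)

end Pool.Agent.DAO
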