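import Pool.Agent.DAO.St

/-!
# Project DAO, module NUB: the numbers, part 2
-/

set_option autoImplicit false

namespace Pool.Agent.DAO

theorem t_NUB : S_NUB := by
  intro a t N ha ht hN hN2
  have hN1 : (2 : ℝ) ^ 128 ≤ (N : ℝ) := by exact_mod_cast hN2
  have hpos : (0 : ℝ) < (N : ℝ) := lt_of_lt_of_le (by positivity) hN1
  have hNr : (N : ℝ) ≤ (2 : ℝ) ^ (3 * t + 1) := by exact_mod_cast hN
  have hlog_le : Real.logb 2 (N : ℝ) ≤ ((3 * t + 1 : ℕ) : ℝ) := by
    have h := Real.logb_le_logb_of_le (b := 2) (by norm_num) hpos hNr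
    rwa [Real.logb_pow, Real.logb_self_eq_one (by norm_num), mul_one] at h
  have hlog_ge : (128 : ℝ) ≤ Real.logb 2 (N : ℝ) := by
    have h := Real.logb_le_logb_of_le (b := 2) (by norm_num) (by positivity) hN1
    rw [Real.logb_pow, Real.logb_self_eq_one (by norm_num), mul_one] at h
    exact_mod_cast h
  refine ⟨?_, ?_⟩
  · intro T hT
    have ha1 : (1 : ℝ) ≤ (a : ℝ) := by exact_mod_cast ha
    have hl13 : Real.logb 2 (N : ℝ) ≤ 13 * (a : ℝ) := by
      refine hlog_le.trans ?_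
      subst ht
      push_cast
      linarith
    have h1 : (N : ℝ) * Real.logb 2 (N : ℝ) ≤ (2 : ℝ) ^ (3 * t + 1) * (13 * (a : ℝ)) :=
      mul_le_mul hNr hl13 (by linarith) (by positivity)
    have h2 : (2 : ℝ) ^ (3 * t + 1) = 2 * (2 : ℝ) ^ (3 * t) := by rw [pow_succ]; ring
    have h3 : (2 : ℝ) * (T : ℝ) ≤ (a : ℝ) * (2 : ℝ) ^ (3 * t) := by
      have h4 : (0 : ℝ) ≤ (a : ℝ) * (2 : ℝ) ^ (3 * t) := by positivity
      rw [h2] at h1
      nlinarith
    exact_mod_cast h3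
  · intro l hl
    push_cast
    have h1 : ((l : ℝ) + 1) ≤ 1 / 64 * Real.logb 2 (N : ℝ) := by linarith
    have h2 := mul_le_mul_of_nonneg_right h1 hpos.le
    linarith

end Pool.Agent.DAO
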