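import Pool.Agent.DAO.St
import Pool.Agent.DGO.St1

/-!
# Project DAO: the reduction
-/

set_option autoImplicit false

namespace Pool.Agent.DAO

open Finset Pool.Agent.OB Pool.Agent.DGO

/-- The reduction to the lower bound for rectangles. -/
def S_REF : Prop := ∀ (I : Type) [Fintype I] [DecidableEq I] (g k T w L a' d r w₀ lg : ℕ)
  (G : CNF I) (H : Finset I → (I → Bool) → Prop)
  (σ : ℕ → (Fin g → Bool) ⊕ ((Fin 3 × I × Fin (2 ^ (4 * a') + 1)) × Fin g)),
  1 ≤ k → 8 * k ≤ 2 ^ g → 2 * T ≤ k * 2 ^ g →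
  2 ^ (2 * k + 5) * (2 * Fintype.card I * (2 ^ (4 * a') + 1)) ≤ 2 ^ g →
  3 ≤ Fintype.card I → 512 * Fintype.card I ^ 5 ≤ 2 ^ a' →
  4 * Fintype.card I * (256 * Fintype.card I ^ 5) ^ Fintype.card I * 4 ^ d ≤
    2 ^ ((2 ^ a') ^ 2 / 2) →
  d = Fintype.card I * (4 * a') + 3 * Fintype.card I + 1 + lg →
  (L + 1) * 2 ^ (3 * ((4 * k ^ 2 + 1) * Nat.clog 2 w) + 1) ≤ 2 ^ lg →
  G.Nonempty → Strat G w₀ H → 3 * r ≤ w₀ → (∀ C ∈ G, C.card + r ≤ w₀) →
  Ref (adr g (idx (2 ^ (4 * a')) G)) (Obl σ T w) L →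
  Fintype.card I ^ r ≤ (L + 1) * 2 ^ (3 * ((4 * k ^ 2 + 1) * Nat.clog 2 w) + 1) * 2

theorem t_REF (hRAM : S_RAM) (hOBX : S_OBX) (hRDG : S_RDG) (hEMB : S_EMB) (hAXI : S_AXI)
    (hPLC : S_PLC) (hCORE : S_CORE) : S_REF := by
  classical
  intro I _ _ g k T w L a' d r w₀ lg G H σ hk h8 h2T hplace hn h512 hnum hd hlg hG hstr hrw hC href
  obtain ⟨f, hf, k₀, hk₀, hf₀⟩ := href
  -- the pool
  let U : Finset ((Fin g → Bool) ⊕ ((Fin 3 × I × Fin (2 ^ (4 * a') + 1)) × Fin g)) :=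
    (univ : Finset (Fin g → Bool)).map ⟨Sum.inl, Sum.inl_injective⟩
  have hU : U.card = 2 ^ g := by simp [U]
  obtain ⟨J, len, own, A, B, hAU, hBU, hAB, hTJ, hJ, hA, hB, hown⟩ :=
    hRAM _ U σ T k hk (by rw [hU]; exact h8) (by rw [hU]; exact h2T)
  let A₀ : Finset (Fin g → Bool) := univ.filter fun y => Sum.inl y ∈ A
  let B₀ : Finset (Fin g → Bool) := univ.filter fun y => Sum.inl y ∈ B
  have hcard : ∀ (S : Finset ((Fin g → Bool) ⊕ ((Fin 3 × I × Fin (2 ^ (4 * a') + 1)) × Fin g))),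
      S ⊆ U → S.card ≤ ((univ : Finset (Fin g → Bool)).filter fun y => Sum.inl y ∈ S).card := by
    intro S hS
    rw [← Finset.card_map (⟨Sum.inl, Sum.inl_injective⟩ :
      (Fin g → Bool) ↪ ((Fin g → Bool) ⊕ ((Fin 3 × I × Fin (2 ^ (4 * a') + 1)) × Fin g)))]
    apply Finset.card_le_card
    intro x hx
    obtain ⟨y, -, rfl⟩ := Finset.mem_map.1 (hS hx)
    exact Finset.mem_map.2 ⟨y, Finset.mem_filter.2 ⟨Finset.mem_univ _, hx⟩, rfl⟩
  have hbig : ∀ (S : Finset ((Fin g → Bool) ⊕ ((Fin 3 × I × Fin (2 ^ (4 * a') + 1)) × Fin g))),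
      S ⊆ U → U.card ≤ 2 ^ (2 * k + 5) * S.card →
      2 * Fintype.card I * (2 ^ (4 * a') + 1) ≤
        ((univ : Finset (Fin g → Bool)).filter fun y => Sum.inl y ∈ S).card := by
    intro S hS h
    rw [hU] at h
    exact (Nat.le_of_mul_le_mul_left (hplace.trans h) (by positivity)).trans (hcard S hS)
  have hA₀ := hbig A hAU hA
  have hB₀ := hbig B hBU hB
  have hdis : Disjoint A₀ B₀ := by
    rw [Finset.disjoint_left]
    intro y h1 h2
    exact (Finset.disjoint_left.1 hAB) (Finset.mem_filter.1 h1).2 (Finset.mem_filter.1 h2).2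
  obtain ⟨pos, hpos, hpA, hpB⟩ := hPLC I (4 * a') g A₀ B₀ hdis hA₀
    (le_trans (Nat.mul_le_mul_right _ (by omega)) hB₀)
  have e : (Fin (4 * a') → Bool) ≃ Fin (2 ^ (4 * a')) :=
    Fintype.equivFinOfCardEq (by simp)
  obtain ⟨hv, hvB, hvA⟩ := hEMB I (4 * a') g e pos A₀ B₀ hpos hpA hpB hdis
  set D := J * Nat.clog 2 w with hD
  have hDle : D ≤ (4 * k ^ 2 + 1) * Nat.clog 2 w := Nat.mul_le_mul_right _ hJ
  have hmono : (L + 1) * 2 ^ (3 * D + 1) ≤
      (L + 1) * 2 ^ (3 * ((4 * k ^ 2 + 1) * Nat.clog 2 w) + 1) :=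
    Nat.mul_le_mul_left _ (Nat.pow_le_pow_right (by norm_num) (by omega))
  have hlines : ∀ j < L, BP D (fun p V => f j (emb e pos p V)) ∧
      ((∃ C ∈ G, ∀ p V, f j (emb e pos p V) = false → ¬ Sat (fun i => V i (p i)) C) ∨
        ∃ i < j, ∃ i' < j, ∀ p V, f j (emb e pos p V) = false →
          f i (emb e pos p V) = false ∨ f i' (emb e pos p V) = false) := by
    intro j hj
    refine ⟨hOBX _ _ _ σ T w J len own (fun p V => emb e pos p V) (f j) hTJ ?_ ?_ (hf j hj).1, ?_⟩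
    · intro t ht ho p V V'
      rcases hσ : σ t with y | ⟨a, i⟩
      · refine hvB y (fun hy => ?_) p V V'
        have := (hown t ht).2 (by rw [hσ]; exact (Finset.mem_filter.1 hy).2)
        rw [this] at ho
        exact absurd ho (by simp)
      · rfl
    · intro t ht ho p p' V
      rcases hσ : σ t with y | ⟨a, i⟩
      · refine hvA y (fun hy => ?_) p p' V
        have := (hown t ht).1 (by rw [hσ]; exact (Finset.mem_filter.1 hy).2)
        rw [this] at ho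
        exact absurd ho (by simp)
      · rfl
    · rcases (hf j hj).2 with ⟨C, hC', h⟩ | ⟨i, hi, i', hi', h⟩
      · obtain ⟨C₀, hC₀, h₀⟩ := hAXI I (4 * a') g e pos G hG hv C hC'
        refine Or.inl ⟨C₀, hC₀, fun p V hfalse => h₀ p V fun hsat => ?_⟩
        have := h _ hsat
        rw [this] at hfalse
        exact absurd hfalse (by simp)
      · refine Or.inr ⟨i, hi, i', hi', fun p V hfalse => ?_⟩
        by_contra hcon
        rw [not_or, Bool.not_eq_false, Bool.not_eq_false] at hcon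
        have := h _ hcon.1 hcon.2
        rw [this] at hfalse
        exact absurd hfalse (by simp)
  obtain ⟨F, hF1, hF2, hF3⟩ := hRDG I (4 * a') D L G (fun k p V => f k (emb e pos p V)) hG
    hlines ⟨k₀, hk₀, fun p V => hf₀ _⟩
  exact (hCORE I (4 * a') a' d r w₀ _ 2 lg G H F hn h512 hnum hd (hmono.trans hlg) hstr hrw hC
      hF1 hF2 hF3).trans (Nat.mul_le_mul_right _ hmono)

end Pool.Agent.DAO
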