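import Pool.Agent.DAO.CD

/-!
# Project DAO: statements

Every `S_XXX` is proved in `Pool/Agent/DAO/XXX.lean` as `theorem Pool.Agent.DAO.t_XXX : S_XXX` (the
statements used are hypotheses, as written in the doc string).
-/

set_option autoImplicit false

namespace Pool.Agent.DAO

open Finset Pool.Agent.OB Pool.Agent.DGO

/-! ## The formulas -/

/-- IDX: the formula with tables.
Proof. Unsat: let `x` be an assignment and suppose that it satisfies all clauses of the first three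
kinds. For each `i`: `x (1, i, 0) = false` and `x (1, i, last M) = true`, so there is `q : Fin M` with
`x (1, i, q.castSucc) = false` and `x (1, i, q.succ) = true` (induction on `Fin (M + 1)`,
`Fin.induction`, as in module PHP of DGO, Pool/Agent/DGO/PHP.lean), so `x (0, i, q.castSucc) = true`.
Choose such a `q i` for each `i` and put `z i = x (2, i, (q i).castSucc)`. A clause `C` of `G` is
falsified by `z`; the clause of the fourth kind for `C` and `p i = (q i).castSucc` is falsified by `x`.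
Widths: `Finset.card_insert_le`, `Finset.card_union_le`, `Finset.card_image_le`. The number of clauses:
`Finset.card_union_le`, `Finset.card_image_le`, `Finset.card_biUnion_le`; for fixed `C` the clause for `p`
depends only on the values of `p` on `S = C.image Prod.fst`, `|S| ≤ 3`: the image of
`p ↦ clause` is contained in the image of the functions `S → Fin (M + 1)` (`{i // i ∈ S} → _`,
`Fintype.card_fun`, `(M + 1) ^ |S| ≤ (M + 1) ^ 3`). -/
def S_IDX : Prop := ∀ (I : Type) [Fintype I] [DecidableEq I] (M : ℕ) (G : CNF I),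
  (∀ C ∈ G, C.card ≤ 3) →
  (Unsat G → Unsat (idx M G)) ∧ (∀ D ∈ idx M G, D.card ≤ 6) ∧
  (idx M G).card ≤ 2 * Fintype.card I + Fintype.card I * M + G.card * (M + 1) ^ 3

/-- ADR: the indirectly addressed formula.
Proof. Unsat: for the assignment `b` let `z a = b (inl (fun j => b (inr (a, j))))`, let `D ∈ H` be
falsified by `z`, `s a j = b (inr (a, j))`. The clause for `D` and `s` is falsified by `b`:
`b (inr (a, j)) = s a j ≠ !(s a j)` and `b (inl (s a)) = z a ≠ c` for `(a, c) ∈ D`. A falsified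
clause is not a tautology, so it is in the filter. The width: the first part is at most
`|D| * g` (`Finset.card_biUnion_le`, each image has at most `g` elements), the second at most `|D|`.
The number: `Finset.card_filter_le`, `Finset.card_biUnion_le`; for fixed `D` the clause depends only
on the values of `s` on `S = D.image Prod.fst`, `|S| ≤ 6`, and there are `(2 ^ g) ^ |S| ≤ 2 ^ (6 g)`
functions on `S`. -/
def S_ADR : Prop := ∀ (A : Type) [Fintype A] [DecidableEq A] (g : ℕ) (H : CNF A),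
  (∀ D ∈ H, D.card ≤ 6) →
  (Unsat H → Unsat (adr g H)) ∧ (∀ C ∈ adr g H, ¬ Taut C ∧ C.card ≤ 6 * (g + 1)) ∧
  (adr g H).card ≤ H.card * 2 ^ (6 * g)

/-! ## Reading sequences -/

/-- PRE: functions with prescribed values.
Proof. The filter is `Fintype.piFinset fun x => if x ∈ S then {c x} else univ`
(`Fintype.mem_piFinset`); its cardinality is `∏ x, if x ∈ S then 1 else 2`
(`Fintype.card_piFinset`), and this times `2 ^ |S| = ∏ x, if x ∈ S then 2 else 1` is `∏ x, 2`. -/
def S_PRE : Prop := ∀ (X : Type) [Fintype X] [DecidableEq X] (S : Finset X) (c : X → Bool),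
  ((univ : Finset (X → Bool)).filter fun f => ∀ x ∈ S, f x = c x).card * 2 ^ S.card =
    2 ^ Fintype.card X

/-- OCC: few variables are read more than `k` times.
Proof. Let `W` be the set of the others. `(k + 1) |W| ≤ ∑ v ∈ W, occ v ≤ T`
(`Finset.card_eq_sum_card_fiberwise` or `Finset.sum_card_filter`-like: the filters are disjoint subsets
of `range T`). So `2 k |W| ≤ 2 T ≤ k |U|`, `2 |W| ≤ |U|`, and `|U| = |filter| + |W|`
(`Finset.card_filter_add_card_filter_not` or `filter_card_add_filter_neg_card_eq_card`). -/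
def S_OCC : Prop := ∀ (V : Type) [DecidableEq V] (U : Finset V) (σ : ℕ → V) (T k : ℕ), 1 ≤ k →
  2 * T ≤ k * U.card →
  U.card ≤ 2 * (U.filter fun v => ((range T).filter fun t => σ t = v).card ≤ k).card

open Classical in
/-- SHR: a variable shares intervals with few others (the interval of the time `t` is `t / len`).
Proof. The set is contained in
`((range T).filter fun t => σ t = v).biUnion fun t => (Ico (len * (t / len)) (len * (t / len) + len)).image σ`
(`t' / len = t / len` implies `len * (t / len) ≤ t' < len * (t / len) + len`; `Nat.div_add_mod`,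
`Nat.mod_lt`). Its cardinality is at most `k * len` (`Finset.card_biUnion_le_card_mul`,
`Finset.card_image_le`, `Nat.card_Ico`). -/
def S_SHR : Prop := ∀ (V : Type) [DecidableEq V] (U : Finset V) (σ : ℕ → V) (T k len : ℕ) (v : V), 1 ≤ len →
  ((range T).filter fun t => σ t = v).card ≤ k →
  (U.filter fun v' => ∃ t < T, ∃ t' < T, σ t = v ∧ σ t' = v' ∧ t / len = t' / len).card ≤ k * len

/-- RAM (uses `S_PRE`, `S_OCC`, `S_SHR`): two large sets with few alternations. The time is cut into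
`J` intervals of length `len`, and `A` is read only in intervals with `own = true`, `B` only in
intervals with `own = false`.
Proof. Let `U'` be the set in OCC, `u' = |U'|`, so `|U| ≤ 2 u'`, `4 k ≤ u'`. `len = u' / (2 k) ≥ 2`,
`2 k len ≤ u' ≤ 4 k len`, `J = T / len + 1`; `T ≤ k u' ≤ 4 k² len`, so `J ≤ 4 k² + 1`, and
`T < J len`, `t / len < J` for `t < T`. By SHR each `v ∈ U'` has at least `u' - u' / 2 - 1`, so
at least `u' / 4` partners `v' ∈ U'`, `v' ≠ v`, which do not share an interval with `v`: there are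
pairs `(v, v')` of this kind, their number `P` satisfies `4 P ≥ u'²`.
Let `X = Fin J ⊕ V`. For `ω : X → Bool` let `A ω` be the set of the `v ∈ U'` with `ω (inr v) = true` and
`ω (inl (t / len)) = true` for all `t < T` with `σ t = v`, and `B ω` the same with `false`; they are
disjoint. For a pair `(v, v')` as above the `ω` with `v ∈ A ω`, `v' ∈ B ω` are those with prescribed
values on a set of at most `2 k + 2` elements of `X` (the places `inr v`, `inr v'`, `inl (t / len)`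
for the at most `k` times of `v` and of `v'`; prescribe `true` at `x` iff `x = inr v` or `x` is an
interval of `v`), so by PRE their number times `2 ^ (2 k + 2)` is at least `2 ^ |X|`. Sum over the
pairs: `∑ ω, |A ω| |B ω| * 2 ^ (2 k + 2) ≥ P 2 ^ |X|`, so for some `ω` (if all terms were smaller, the
sum would be: `Finset.exists_le_of_sum_le` or by contradiction with `Finset.sum_lt_sum_of_nonempty`)
`|A ω| |B ω| 2 ^ (2 k + 4) ≥ u'²`. As both are at most `u'`, each is at least `u' / 2 ^ (2 k + 4)`.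
`own j = if h : j < J then ω (inl ⟨j, h⟩) else true`. -/
def S_RAM : Prop := ∀ (V : Type) [Fintype V] [DecidableEq V] (U : Finset V) (σ : ℕ → V) (T k : ℕ),
  1 ≤ k → 8 * k ≤ U.card → 2 * T ≤ k * U.card →
  ∃ (J len : ℕ) (own : ℕ → Bool) (A B : Finset V), A ⊆ U ∧ B ⊆ U ∧ Disjoint A B ∧
    T ≤ J * len ∧ J ≤ 4 * k ^ 2 + 1 ∧ U.card ≤ 2 ^ (2 * k + 5) * A.card ∧
    U.card ≤ 2 ^ (2 * k + 5) * B.card ∧
    ∀ t < T, (σ t ∈ A → own (t / len) = true) ∧ (σ t ∈ B → own (t / len) = false)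

/-- OBX: a protocol for an oblivious branching program.
Proof. Let `δ`, `q₀`, `acc` be from `Obl`, `κ = Nat.clog 2 w`, `st p q t = run δ σ q₀ (em p q) t`,
`β (bit e) p q = (st p q (min ((e / κ + 1) * len) T)).val.testBit (e % κ)`, owner of the bit `e`:
`own (e / κ)`. STEP: let `e < J κ` (so `κ > 0`), `j = e / κ`, and let the bits before `e` agree for
`(p, q)` and `(p', q')`. Then `st` agrees at the time `min (j * len) T`: for `j = 0` both are `q₀`; for
`j ≥ 1` the bits `(j - 1) κ + i`, `i < κ`, are `testBit i` of the state at this time, and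
`w ≤ 2 ^ κ` (`Nat.le_pow_clog`), so the states agree (`Nat.eq_of_testBit_eq`,
`Nat.testBit_eq_false_of_lt`/`Nat.testBit_lt_two_pow`). From there to `min ((j + 1) * len) T` (induction)
the times `t` have `t < T`, `t / len = j`, so if `own j = true` then `p = p'` and
`em p q (σ t) = em p' q' (σ t)`; the same for `false`. So `st` agrees at `min ((j + 1) * len) T`.
LAST: if all bits agree then `st` agrees at `T`: if `J = 0` then `T = 0`; if `κ = 0` then `w ≤ 1` and
`Fin w` has at most one element; otherwise take the bits with `e / κ = J - 1`, `T ≤ J * len`. -/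
def S_OBX : Prop := ∀ (V P Q : Type) (σ : ℕ → V) (T w J len : ℕ) (own : ℕ → Bool)
  (em : P → Q → V → Bool) (f : (V → Bool) → Bool), T ≤ J * len →
  (∀ t < T, own (t / len) = true → ∀ p q q', em p q (σ t) = em p q' (σ t)) →
  (∀ t < T, own (t / len) = false → ∀ p p' q, em p q (σ t) = em p' q (σ t)) →
  Obl σ T w f → BP (J * Nat.clog 2 w) fun p q => f (em p q)

/-! ## Rectangles -/

/-- BIT: numbers with given binary digits.
Proof. Induction on `D`: `h' = h + (if c D then 2 ^ D else 0)` (`Nat.testBit_two_pow_add_eq`,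
`Nat.testBit_two_pow_add_gt`), or `h = Nat.ofBits` (`Nat.testBit_ofBits_lt`, `Nat.ofBits_lt_two_pow`). -/
def S_BIT : Prop := ∀ (D : ℕ) (c : ℕ → Bool), ∃ h < 2 ^ D, ∀ j < D, h.testBit j = c j

/-- RDG (uses `S_BIT`): the lines are replaced by rectangles. `f k` is the function of the line `k`,
`F v p` is the set of the second components of the rectangle `v` if `p` is in the first component, and
empty otherwise.
Proof. Add a line `L` with the constant function `false`, implied by the line `k₀` with `f k₀ = false`,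
with the protocol in which all bits are `false`. For `k ≤ L` let `β k` be the bits of the protocol of
`f k`, and if the line `k` is not an axiom let `i, j < k` be its premises and `γ k e` the bit `β i e` for
`e < D` and `β j (e - D)` for `D ≤ e < 2 D`. Let `B = 2 ^ (2 D + 1)`. For `k ≤ L`, `h < 2 ^ D`, `u < B` let
the rectangle `R(k, h, u)` be the set of the `(p, V)` with `f k p V = false`, `β k e p V = h.testBit e`
for `e < D`, and `γ k e p V = u.testBit (a - 1 - e)` for `e < a`, `a = Nat.log 2 u` (so `u` has the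
binary digits `1, γ 0, …, γ (a - 1)`); for `u = 0` let it be empty. Its number is
`v = (k * 2 ^ D + h) * B + (B - 1 - u)`, and `F v p` is the set of the `V` with `(p, V)` in it
(decode: `u = B - 1 - v % B`, `h = v / B % 2 ^ D`, `k = v / B / 2 ^ D`).
FEW: if `(p, V)` and `(p', V')` are in the rectangle then so is `(p, V')`: by induction on `e` the bits
`β k e` agree at `(p, V')`, `(p, V)` and `(p', V')` (the owner of the bit is one of the two parties),
the same for `β i` and `β j`, and `f k` is determined by `β k`. So `F v p` is empty or the set `Y` of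
all `V` with some `(p, V)` in the rectangle: the image has at most two elements (`Λ i = univ`).
STEPS: (a) `u = 0`: any clause of `G` will do, `F v p` is empty. (b) `k` is an axiom: its clause. (c)
`0 < u`, `a < 2 D`: `R(k, h, u)` is contained in the union of `R(k, h, 2 u)` and `R(k, h, 2 u + 1)`
(according to the bit `γ a`; `Nat.log 2 (2 u + b) = Nat.log 2 u + 1`,
`(2 u + b).testBit (e + 1) = u.testBit e`, `Nat.testBit_succ`, ...), which have smaller numbers,
`2 u + 1 < B`. (d) `a = 2 D`: by BIT there are `h₁ < 2 ^ D` with `h₁.testBit e = u.testBit (2 D - 1 - e)`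
and `h₂` with `h₂.testBit e = u.testBit (D - 1 - e)` for `e < D`; a member `(p, V)` of `R(k, h, u)` has
the bits `h₁` in `β i` and `h₂` in `β j`, and `f i p V = false` or `f j p V = false`, so it is in
`R(i, h₁, 1)` or in `R(j, h₂, 1)` (`Nat.log 2 1 = 0`), which have smaller numbers. (For `D = 0`: `B = 2`.)
START: `R(L, 0, 1)` is everything. All numbers are less than `(L + 1) * 2 ^ D * B`. -/
def S_RDG : Prop := ∀ (I : Type) [Fintype I] [DecidableEq I] (t D L : ℕ) (G : CNF I)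
  (f : ℕ → Ptr I t → Arr I t → Bool), G.Nonempty →
  (∀ k < L, BP D (f k) ∧
    ((∃ C ∈ G, ∀ p V, f k p V = false → ¬ Sat (fun i => V i (p i)) C) ∨
      ∃ i < k, ∃ j < k, ∀ p V, f k p V = false → f i p V = false ∨ f j p V = false)) →
  (∃ k < L, ∀ p V, f k p V = false) →
  ∃ F : ℕ → Ptr I t → Finset (Arr I t),
    (∀ v < (L + 1) * 2 ^ (3 * D + 1), Few t 2 (F v)) ∧
    (∀ v < (L + 1) * 2 ^ (3 * D + 1), (∃ u₁ < v, ∃ u₂ < v, ∀ p, F v p ⊆ F u₁ p ∪ F u₂ p) ∨
      ∃ C ∈ G, ∀ p, ∀ V ∈ F v p, ¬ Sat (fun i => V i (p i)) C) ∧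
    ∃ v < (L + 1) * 2 ^ (3 * D + 1), ∀ p, F v p = univ

/-! ## The embedding -/

/-- EMB: the embedding.
Proof. By the injectivity `h.choose = a` for `y = pos a`. If `y ∉ B₀` is `pos a` then `a.1 ≠ 2`, so
`atv` does not depend on `V`; if `y ∉ A₀` is `pos a` then `a.1 = 2`, so `atv` does not depend on `p`
(the cases `a.1 = 0`, `a.1 = 1` are excluded). -/
def S_EMB : Prop := ∀ (I : Type) (t g : ℕ) (e : (Fin t → Bool) ≃ Fin (2 ^ t))
  (pos : Fin 3 × I × Fin (2 ^ t + 1) → Fin g → Bool) (A₀ B₀ : Finset (Fin g → Bool)),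
  Function.Injective pos → (∀ a, a.1 ≠ 2 → pos a ∈ A₀) → (∀ a, a.1 = 2 → pos a ∈ B₀) →
  Disjoint A₀ B₀ →
  (∀ p V a, emb e pos p V (Sum.inl (pos a)) = atv e p V a) ∧
  (∀ y, y ∉ B₀ → ∀ p V V', emb e pos p V (Sum.inl y) = emb e pos p V' (Sum.inl y)) ∧
  ∀ y, y ∉ A₀ → ∀ p p' V, emb e pos p V (Sum.inl y) = emb e pos p' V (Sum.inl y)

/-- AXI: the axioms.
Proof. Let `C ∈ adr g (idx (2 ^ t) G)` come from `D ∈ idx (2 ^ t) G` and `s`. If `emb e pos p V` falsifies
`C` then `s a = pos a` for all variables `a` of `D` (the literals `(inr (a, j), !(s a j))` are false),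
and `atv e p V` falsifies `D` (the literals `(inl (s a), c)`, and the first claim of EMB, which is
the hypothesis `hv`). `atv e p V` satisfies the clauses of the first three kinds of `idx`
(`¬ (e (p i)).castSucc < 0`; `(e (p i)).castSucc < last`; `x < q.succ → x < q.castSucc ∨ x = q.castSucc`):
if `D` is one of them take any member of `G`. If `D` is the clause for `C₀ ∈ G` and `p'` take `C₀`:
the literals `((0, i, p' i), false)` are false, so `(e (p i)).castSucc = p' i` for the variables `i` of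
`C₀`, and the literals `((2, i, p' i), c)` are false, so `V i (p i) ≠ c` for `(i, c) ∈ C₀`
(`e.symm ⟨(p' i : ℕ), _⟩ = p i`). -/
def S_AXI : Prop := ∀ (I : Type) [Fintype I] [DecidableEq I] (t g : ℕ)
  (e : (Fin t → Bool) ≃ Fin (2 ^ t)) (pos : Fin 3 × I × Fin (2 ^ t + 1) → Fin g → Bool) (G : CNF I),
  G.Nonempty → (∀ p V a, emb e pos p V (Sum.inl (pos a)) = atv e p V a) →
  ∀ C ∈ adr g (idx (2 ^ t) G), ∃ C₀ ∈ G, ∀ p V, ¬ Sat (emb e pos p V) C →
    ¬ Sat (fun i => V i (p i)) C₀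

/-- PLC: the choice of the addresses.
Proof. There are `2 n (2 ^ t + 1)` atoms with `a.1 ≠ 2` and `n (2 ^ t + 1)` with `a.1 = 2`. Injections of
the two subtypes into `A₀`, `B₀` (`Function.Embedding.nonempty_of_card_le`), put together
(`A₀`, `B₀` are disjoint). -/
def S_PLC : Prop := ∀ (I : Type) [Fintype I] [DecidableEq I] (t g : ℕ)
  (A₀ B₀ : Finset (Fin g → Bool)), Disjoint A₀ B₀ →
  2 * Fintype.card I * (2 ^ t + 1) ≤ A₀.card → Fintype.card I * (2 ^ t + 1) ≤ B₀.card →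
  ∃ pos : Fin 3 × I × Fin (2 ^ t + 1) → Fin g → Bool, Function.Injective pos ∧
    (∀ a, a.1 ≠ 2 → pos a ∈ A₀) ∧ ∀ a, a.1 = 2 → pos a ∈ B₀

/-! ## OBDDs and inequalities are oblivious branching programs -/

/-- OBD: an OBDD as an oblivious branching program which reads all variables in the order `ord 0`,
then in the order `ord 1`, and so on.
Proof. `n = card V`, `ρ = ord k`. For `c ≤ n` say `x ~_c y` if for all `z` the function `f` has the same
value at `x` on the first `c` variables, `z` on the others, and at `y` on the first `c`, `z` on the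
others. By `Pool.Agent.DGO.t_OST : S_OST` (import Pool.Agent.DGO.OST) there is `st : (V → Bool) → Fin s'`
such that `st x = st y → x ~_c y` and `st` depends only on the first `c` variables. So there is
`enc c : (V → Bool) → Fin s` with `enc c x = enc c y ↔ x ~_c y`: take `enc c x = st` of a chosen
representative of the class of `x` (`Quotient.out`, or the least value of `st` on the class; then
`Fin.castLE`). `x ~_0 y` always, `x ~_n y ↔ f x = f y`, and if `x ~_c y` and `x`, `y` agree at the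
variable `v = ρ.symm c` then `x ~_(c+1) y`. Also `x ~_c Function.update x v b`. The program: `q₀` is
the value of `enc 0`; at the times `k n + c`, `c < n`, in the state `q`, reading `b`: if there is `x` with
`enc c x = q` choose one, and the next state is `enc (c + 1) (Function.update x v b)`; otherwise `q`. At
all other times the state does not change. By induction the state at the time `k n + c` is `enc c x`
(`c ≤ n`), before it is `q₀` and afterwards `enc n x`. `acc q = f x` for a chosen `x` with `enc n x = q`.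
(The time `τ`: use `τ / n = k`, `τ % n`, or `if h : k n ≤ τ ∧ τ < k n + n`.) -/
def S_OBD : Prop := ∀ (V : Type) [Fintype V] [DecidableEq V] (l s s' : ℕ)
  (ord : Fin l → (V ≃ Fin (Fintype.card V))) (k : Fin l) (f : (V → Bool) → Bool) (σ : ℕ → V),
  s' ≤ s → HasOBDD (ord k) s' f →
  (∀ (k : Fin l) (j : Fin (Fintype.card V)), σ (k * Fintype.card V + j) = (ord k).symm j) →
  Obl σ (l * Fintype.card V) s f

/-- THR: a linear inequality as an oblivious branching program.
Proof. The state at the time `t ≤ n = card V` is the partial sum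
`S t x = ∑ j < t, if x (ρ.symm j) then a (ρ.symm j) else 0`, which is between `-s` and `s`
(`Finset.abs_sum_le_sum_abs`), stored as the natural number `S + s ≤ 2 s`; it does not change after the
time `n`. To define `δ` for all states: `δ t q b = if h : (the new number is between 0 and 2 s) then it
else q` (`Int.toNat`). `acc q = decide (b ≤ q - s)`. `∑ v, .. = ∑ j : Fin n, ..` by `Equiv.sum_comp`,
`Fin.sum_univ_eq_sum_range`. -/
def S_THR : Prop := ∀ (V : Type) [Fintype V] (s T : ℕ) (ρ : V ≃ Fin (Fintype.card V))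
  (f : (V → Bool) → Bool) (σ : ℕ → V), Ineq s f → Fintype.card V ≤ T →
  (∀ j : Fin (Fintype.card V), σ j = ρ.symm j) → Obl σ T (2 * s + 1) f

/-- OBM: the width may be increased.
Proof. Embed the states by `Fin.castLE h`; `δ' t q b = if hq : (q : ℕ) < w then Fin.castLE h (δ t ⟨q, hq⟩ b)
else q`, `acc' q = if hq : (q : ℕ) < w then acc ⟨q, hq⟩ else false`; induction on the time. -/
def S_OBM : Prop := ∀ (V : Type) (σ : ℕ → V) (T w w' : ℕ) (f : (V → Bool) → Bool), w ≤ w' →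
  Obl σ T w f → Obl σ T w' f

/-! ## Numbers -/

/-- NUA: the numbers, part 1. `n = (m + 1) (2 m + 1)`, `a` is `a'`, `t = 4 a`.
Proof. `512 n ^ 5 ≤ 2 ^ a` (`Nat.le_pow_clog`) and `2 ^ a ≤ 1024 n ^ 5` (`Nat.pow_pred_clog_lt_self`).
`n ≥ 100`, as `m ≥ 10`. So `a ≥ 9`; with `F = Nat.log 2 m`: `n ≤ 2 ^ (F + 1) * 2 ^ (F + 2)`, so
`512 n ^ 5 ≤ 2 ^ (24 + 10 F)` and `a ≤ 24 + 10 F`; `2 ^ 36 n ^ 20 ≤ 2 ^ t ≤ 2 ^ 40 n ^ 20`. `n ≤ 6 m²`, so
`2 ^ (3 t) ≤ 2 ^ 120 * 6 ^ 60 * m ^ 120 ≤ 2 ^ 300 m ^ 120`. `t ≤ 2 ^ a`, so `9 n t (2 ^ t + 1) ≤ 2 ^ (3 t)` and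
`2 ^ (3 t) ≤ N ≤ 2 * 2 ^ (3 t) ≤ m ^ 421`; `m ≤ 2 ^ t ≤ N`. The number of clauses is at most
`2 ^ (5 t) * 2 ^ (18 t) ≤ (2 ^ (3 t)) ^ 8 ≤ N ^ 8`. `3 t ≤ Nat.log 2 N`, so
`6 (3 t + 1) ≤ 24 t ≤ 8 Nat.log 2 N`. `2 ^ (2 a + 5) * (2 n (2 ^ t + 1)) ≤ 2 ^ (2 a + 7) * 2 ^ a * 2 ^ t
≤ 2 ^ (3 t)` (`n ≤ 2 ^ a`, `3 a + 7 ≤ 8 a = 2 t`). The condition with `4 ^ (..)`: the exponent (base 2)
of the left hand side is at most `2 + n + n (8 + 5 n) + 2 (n t + 3 n + 1 + m)` (`n ≤ 2 ^ n`), with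
`t ≤ 4 (10 + 5 n)` (`2 ^ a ≤ 1024 n ^ 5 ≤ 2 ^ (10 + 5 n)`) and `m ≤ n` this is at most `150 n² ≤ 2 ^ 17 n ^ 10
≤ (2 ^ a)² / 2`. -/
def S_NUA : Prop := ∀ m n a t N : ℕ, 10 ≤ m → n = (m + 1) * (2 * m + 1) →
  a = Nat.clog 2 (512 * n ^ 5) → t = 4 * a → N = 2 ^ (3 * t) + 3 * (n * (2 ^ t + 1)) * (3 * t) →
  m ≤ N ∧ N ≤ m ^ 500 ∧ 2 ^ (3 * t) ≤ N ∧ N ≤ 2 ^ (3 * t + 1) ∧
  (2 * n + n * 2 ^ t + 4 * (m + 1) ^ 3 * (2 ^ t + 1) ^ 3) * 2 ^ (6 * (3 * t)) ≤ N ^ 500 ∧
  6 * (3 * t + 1) ≤ 500 * Nat.log 2 N ∧ 1 ≤ a ∧ 8 * a ≤ 2 ^ (3 * t) ∧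
  2 ^ (2 * a + 5) * (2 * n * (2 ^ t + 1)) ≤ 2 ^ (3 * t) ∧ 512 * n ^ 5 ≤ 2 ^ a ∧
  4 * n * (256 * n ^ 5) ^ n * 4 ^ (n * t + 3 * n + 1 + m) ≤ 2 ^ ((2 ^ a) ^ 2 / 2) ∧
  a ≤ 25 + 10 * Nat.log 2 m

/-- NUB: the numbers, part 2 (only `N ≤ 2 ^ (3 t + 1)`, `t = 4 a`, `a ≥ 1` are used): `ε = 1 / 64`.
Proof. `logb 2 N ≤ 3 t + 1 = 12 a + 1 ≤ 13 a`, so
`2 T ≤ (2 / 64) * 2 ^ (3 t + 1) * 13 a ≤ (52 / 64) a 2 ^ (3 t)`. Second claim: `logb 2 N ≥ 128`, so
`l + 1 ≤ logb 2 N / 128 + logb 2 N / 128`. -/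
def S_NUB : Prop := ∀ a t N : ℕ, 1 ≤ a → t = 4 * a → N ≤ 2 ^ (3 * t + 1) → 2 ^ 128 ≤ N →
  (∀ T : ℕ, (T : ℝ) ≤ 1 / 64 * N * Real.logb 2 N → 2 * T ≤ a * 2 ^ (3 * t)) ∧
  ∀ l : ℕ, (l : ℝ) ≤ 1 / 128 * Real.logb 2 N →
    (((l + 1) * N : ℕ) : ℝ) ≤ 1 / 64 * N * Real.logb 2 N

/-- NUC: the numbers, part 3.
Proof. `N ^ (1 / 2000) ≤ m ^ (1 / 4)` (`N ≤ m ^ 500`). Let `E = N ^ (1 / 2000) ≥ 1`. `L < 2 ^ E` gives
`L + 1 ≤ 2 ^ (E + 1)`, `w < 2 ^ E` gives `clog 2 w ≤ E + 1` (`Nat.clog` and `Real.logb`: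
`2 ^ (clog 2 w - 1) < w` if `2 ≤ w`). So the base 2 logarithm of the larger number is at most
`(E + 1) + 3 (4 a² + 1) (E + 1) + 2 ≤ 36 a² E ≤ 36 (25 + 10 Nat.log 2 m)² m ^ (1 / 4) < m` for large
`m` (`isLittleO_log_rpow_atTop` or `Nat.log 2 m ≤ C m ^ (1 / 16)`), and
`n ^ (m / 3) ≥ 2 ^ (20 (m / 3)) ≥ 2 ^ m` for `n ≥ m²`, `m ≥ 2 ^ 10`. -/
def S_NUC : Prop := ∃ m₀ : ℕ, ∀ m ≥ m₀, ∀ n a N w L : ℕ, m ^ 2 ≤ n → 1 ≤ a →
  a ≤ 25 + 10 * Nat.log 2 m → m ≤ N → N ≤ m ^ 500 →
  ((max w L : ℕ) : ℝ) < (2 : ℝ) ^ ((N : ℝ) ^ (1 / 2000 : ℝ)) →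
  (L + 1) * 2 ^ (3 * ((4 * a ^ 2 + 1) * Nat.clog 2 w) + 1) ≤ 2 ^ m ∧
  (L + 1) * 2 ^ (3 * ((4 * a ^ 2 + 1) * Nat.clog 2 w) + 1) * 2 < n ^ (m / 3)

/-- NUD: the numbers, part 4.
Proof. `2 s + 1 < 2 ^ (N ^ (1/4000) + 2)` and `N ^ (1/4000) + 2 ≤ N ^ (1/2000)` for large `N`
(`y + 2 ≤ y ^ 2` for `y ≥ 2`, `y = N ^ (1/4000)`, `N ≥ 2 ^ 4000`). -/
def S_NUD : Prop := ∀ N s : ℕ, 2 ^ 4000 ≤ N → (s : ℝ) < (2 : ℝ) ^ ((N : ℝ) ^ (1 / 4000 : ℝ)) →
  ((2 * s + 1 : ℕ) : ℝ) < (2 : ℝ) ^ ((N : ℝ) ^ (1 / 2000 : ℝ))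

/-! ## The theorem -/

/-- The theorem (assembled by the architect). -/
def S_MAIN : Prop := ∃ (c ε : ℝ) (K m₀ : ℕ), 0 < c ∧ 0 < ε ∧ ∀ m ≥ m₀, ∀ N : ℕ,
  N = Fintype.card (FV m) →
  m ≤ N ∧ N ≤ m ^ K ∧ Unsat (form m) ∧ (form m).card ≤ N ^ K ∧
  (∀ C ∈ form m, C.card ≤ K * Nat.log 2 N ∧ ¬ Taut C) ∧
  (∀ (σ : ℕ → FV m) (T w L : ℕ), (T : ℝ) ≤ ε * N * Real.logb 2 N →
    Ref (form m) (Obl σ T w) L → (2 : ℝ) ^ ((N : ℝ) ^ c) ≤ (max w L : ℕ)) ∧
  ∀ (l s L : ℕ) (ord : Fin l → (FV m ≃ Fin (Fintype.card (FV m)))),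
    (l : ℝ) ≤ ε * Real.logb 2 N →
    Ref (form m) (Mixed ord s) L → (2 : ℝ) ^ ((N : ℝ) ^ c) ≤ (max s L : ℕ)

end Pool.Agent.DAO
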